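import Mathlib

/-!
# List chains

`LC k P = List P →₀ k` is the augmented chain complex of ordered lists of points of `P` (the list of
length `m` has dimension `m - 1`). The boundary satisfies `bd (a :: l) = l - a :: bd l`.
-/

set_option autoImplicit false

namespace Pool.Agent.Lib.MP_fd6ff4_co.R43.Top

variable (k : Type*) [CommRing k] (P Q R : Type*)

/-- chains of lists -/
abbrev LC := List P →₀ k

variable {P Q R}

/-- the cone with the apex `p` -/
noncomputable def cone (p : P) : LC k P →ₗ[k] LC k P := Finsupp.lmapDomain k k (List.cons p)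

@[simp] theorem cone_single (p : P) (l : List P) (a : k) :
    cone k p (Finsupp.single l a) = Finsupp.single (p :: l) a := by
  rw [cone, Finsupp.lmapDomain_apply, Finsupp.mapDomain_single]

/-- the boundary of a list -/
noncomputable def bdl : List P → LC k P
  | [] => 0
  | p :: l => Finsupp.single l 1 - cone k p (bdl l)

/-- the boundary -/
noncomputable def bd : LC k P →ₗ[k] LC k P := Finsupp.linearCombination k (bdl k)

theorem bd_single (l : List P) (a : k) : bd k (Finsupp.single l a) = a • bdl k l := by
  rw [bd, Finsupp.linearCombination_single]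

@[simp] theorem bd_single_one (l : List P) : bd k (Finsupp.single l 1) = bdl k l := by
  rw [bd_single, one_smul]

@[simp] theorem bdl_nil : bdl k ([] : List P) = 0 := rfl

theorem bdl_cons (p : P) (l : List P) :
    bdl k (p :: l) = Finsupp.single l 1 - cone k p (bdl k l) := rfl

/-- an equality of linear maps on list chains can be checked on lists -/
theorem lc_ext {M : Type*} [AddCommMonoid M] [Module k M] {f g : LC k P →ₗ[k] M}
    (h : ∀ l, f (Finsupp.single l 1) = g (Finsupp.single l 1)) : f = g := by
  refine Finsupp.lhom_ext fun l a => ?_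
  have h1 : (Finsupp.single l a : LC k P) = a • Finsupp.single l 1 := by
    rw [Finsupp.smul_single, smul_eq_mul, mul_one]
  rw [h1, map_smul, map_smul, h]

theorem bd_cone (p : P) (c : LC k P) : bd k (cone k p c) = c - cone k p (bd k c) := by
  have h : (bd k).comp (cone k p) = LinearMap.id - (cone k p).comp (bd k (P := P)) := by
    refine lc_ext k fun l => ?_
    rw [LinearMap.comp_apply, cone_single, bd_single_one, bdl_cons, LinearMap.sub_apply,
      LinearMap.comp_apply, bd_single_one, LinearMap.id_apply]
  exact LinearMap.congr_fun h c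

theorem bd_bdl (l : List P) : bd k (bdl k l) = 0 := by
  induction l with
  | nil => rw [bdl_nil, map_zero]
  | cons p l ih => rw [bdl_cons, map_sub, bd_cone, ih, map_zero, sub_zero, bd_single_one, sub_self]

theorem bd_bd (c : LC k P) : bd k (bd k c) = 0 := by
  have h : (bd k).comp (bd k (P := P)) = 0 := by
    refine lc_ext k fun l => ?_
    rw [LinearMap.comp_apply, bd_single_one, bd_bdl, LinearMap.zero_apply]
  exact LinearMap.congr_fun h c

/-- the map induced by a map of points -/
noncomputable def lmap (f : P → Q) : LC k P →ₗ[k] LC k Q := Finsupp.lmapDomain k k (List.map f)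

@[simp] theorem lmap_single (f : P → Q) (l : List P) (a : k) :
    lmap k f (Finsupp.single l a) = Finsupp.single (l.map f) a := by
  rw [lmap, Finsupp.lmapDomain_apply, Finsupp.mapDomain_single]

theorem lmap_cone (f : P → Q) (p : P) (c : LC k P) :
    lmap k f (cone k p c) = cone k (f p) (lmap k f c) := by
  have h : (lmap k f).comp (cone k p) = (cone k (f p)).comp (lmap k f) := by
    refine lc_ext k fun l => ?_
    rw [LinearMap.comp_apply, LinearMap.comp_apply, cone_single, lmap_single, lmap_single,
      cone_single, List.map_cons]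
  exact LinearMap.congr_fun h c

theorem lmap_bdl (f : P → Q) (l : List P) : lmap k f (bdl k l) = bdl k (l.map f) := by
  induction l with
  | nil => rw [bdl_nil, map_zero, List.map_nil, bdl_nil]
  | cons p l ih =>
    rw [bdl_cons, map_sub, lmap_single, lmap_cone, ih, List.map_cons, bdl_cons]

theorem lmap_bd (f : P → Q) (c : LC k P) : lmap k f (bd k c) = bd k (lmap k f c) := by
  have h : (lmap k f).comp (bd k) = (bd k).comp (lmap k f) := by
    refine lc_ext k fun l => ?_
    rw [LinearMap.comp_apply, LinearMap.comp_apply, bd_single_one, lmap_single, bd_single_one,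
      lmap_bdl]
  exact LinearMap.congr_fun h c

/-! ### Supports -/

/-- the chains with all their lists satisfying `A` -/
def Sup (A : List P → Prop) : Submodule k (LC k P) := Finsupp.supported k k {l | A l}

variable {k}

theorem mem_Sup {A : List P → Prop} {c : LC k P} : c ∈ Sup k A ↔ ∀ l, c l ≠ 0 → A l := by
  rw [Sup, Finsupp.mem_supported]
  constructor
  · intro h l hl
    exact h (Finsupp.mem_support_iff.mpr hl)
  · intro h l hl
    exact h l (Finsupp.mem_support_iff.mp hl)

theorem single_mem_Sup {A : List P → Prop} {l : List P} (h : A l) (a : k) :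
    Finsupp.single l a ∈ Sup k A := Finsupp.single_mem_supported k a h

theorem Sup_mono {A B : List P → Prop} (h : ∀ l, A l → B l) : Sup k A ≤ Sup k B :=
  Finsupp.supported_mono fun l hl => h l hl

/-- a linear map sends `Sup A` into a submodule if it does so for the lists -/
theorem map_Sup {M : Type*} [AddCommGroup M] [Module k M] {A : List P → Prop}
    {N : Submodule k M} {f : LC k P →ₗ[k] M}
    (h : ∀ l, A l → f (Finsupp.single l 1) ∈ N) {c : LC k P} (hc : c ∈ Sup k A) : f c ∈ N := by
  rw [mem_Sup] at hc
  have h1 : c = ∑ l ∈ c.support, c l • Finsupp.single l 1 := by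
    conv_lhs => rw [← Finsupp.sum_single c]
    rw [Finsupp.sum]
    refine Finset.sum_congr rfl fun l _ => ?_
    rw [Finsupp.smul_single, smul_eq_mul, mul_one]
  rw [h1, map_sum]
  refine Submodule.sum_mem _ fun l hl => ?_
  rw [map_smul]
  exact N.smul_mem _ (h l (hc l (Finsupp.mem_support_iff.mp hl)))

theorem cone_mem {A B : List P → Prop} {p : P} (h : ∀ l, A l → B (p :: l)) {c : LC k P}
    (hc : c ∈ Sup k A) : cone k p c ∈ Sup k B :=
  map_Sup (fun l hl => by rw [cone_single]; exact single_mem_Sup (h l hl) 1) hc

theorem lmap_mem {A : List P → Prop} {B : List Q → Prop} {f : P → Q}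
    (h : ∀ l, A l → B (l.map f)) {c : LC k P} (hc : c ∈ Sup k A) : lmap k f c ∈ Sup k B :=
  map_Sup (fun l hl => by rw [lmap_single]; exact single_mem_Sup (h l hl) 1) hc

/-- the lists in the boundary of `l` are the sublists with one element less -/
theorem bdl_mem (l : List P) :
    bdl k l ∈ Sup k fun l' => List.Sublist l' l ∧ l'.length + 1 = l.length := by
  induction l with
  | nil => rw [bdl_nil]; exact Submodule.zero_mem _
  | cons p l ih =>
    rw [bdl_cons]
    refine Submodule.sub_mem _ (single_mem_Sup ⟨List.sublist_cons_self p l, rfl⟩ 1) ?_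
    refine cone_mem (fun l' h => ⟨List.Sublist.cons_cons p h.1, ?_⟩) ih
    rw [List.length_cons, List.length_cons, h.2]

theorem bd_mem {A B : List P → Prop}
    (h : ∀ l l', A l → List.Sublist l' l → l'.length + 1 = l.length → B l') {c : LC k P}
    (hc : c ∈ Sup k A) : bd k c ∈ Sup k B :=
  map_Sup (fun l hl => by
    rw [bd_single_one]
    exact Sup_mono (fun l' h' => h l l' hl h'.1 h'.2) (bdl_mem l)) hc

end Pool.Agent.Lib.MP_fd6ff4_co.R43.Top
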