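import Mathlib
import Pool.Agent.Lib.MP_fd6ff4_co.R43.Top.ListChain

/-!
# The barycentric subdivision of list chains of points
-/

set_option autoImplicit false

namespace Pool.Agent.Lib.MP_fd6ff4_co.R43.Top

variable (k : Type*) [CommRing k] {E : Type*} [NormedAddCommGroup E] [NormedSpace ℝ E]

/-- the convex hull of the points of a list -/
def hull (l : List E) : Set E := convexHull ℝ {x | x ∈ l}

theorem hull_mono {l l' : List E} (h : ∀ x ∈ l', x ∈ hull l) : hull l' ⊆ hull l :=
  convexHull_min h (convex_convexHull ℝ _)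

theorem mem_hull {l : List E} {x : E} (h : x ∈ l) : x ∈ hull l := subset_convexHull ℝ _ h

theorem hull_sublist {l l' : List E} (h : List.Sublist l' l) : hull l' ⊆ hull l :=
  hull_mono fun _ hx => mem_hull (h.subset hx)

/-- the barycentre -/
noncomputable def bary (l : List E) : E := (l.length : ℝ)⁻¹ • l.sum

theorem sum_mem_smul {s : Set E} (hs : Convex ℝ s) (l : List E) (h : ∀ x ∈ l, x ∈ s)
    (hl : l ≠ []) : bary l ∈ s := by
  have key : ∀ l : List E, (∀ x ∈ l, x ∈ s) → l ≠ [] → bary l ∈ s := by
    intro l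
    induction l with
    | nil => intro _ h; exact absurd rfl h
    | cons p l ih =>
      intro h _
      by_cases hl : l = []
      · subst hl
        have : bary [p] = p := by simp [bary]
        rw [this]
        exact h p (by simp)
      · have h1 : bary l ∈ s := ih (fun x hx => h x (List.mem_cons_of_mem _ hx)) hl
        have hpos : (0 : ℝ) < l.length := by
          exact_mod_cast List.length_pos_iff.mpr hl
        have h2 : bary (p :: l) = ((l.length : ℝ) + 1)⁻¹ • p +
            ((l.length : ℝ) / ((l.length : ℝ) + 1)) • bary l := by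
          rw [bary, bary, List.sum_cons, List.length_cons, smul_add, smul_smul]
          congr 2
          · push_cast
            rfl
          · push_cast
            field_simp
        rw [h2]
        refine hs (h p (by simp)) h1 (by positivity) (by positivity) ?_
        field_simp
        ring
  exact key l h hl

theorem bary_mem {l : List E} (hl : l ≠ []) : bary l ∈ hull l :=
  sum_mem_smul (convex_convexHull ℝ _) l (fun _ hx => mem_hull hx) hl

open Classical in
theorem dist_bary {l : List E} {D : ℝ} (hD : ∀ x ∈ l, ∀ y ∈ l, dist x y ≤ D) {p : E}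
    (hp : p ∈ l) : dist p (bary l) ≤ (1 - (l.length : ℝ)⁻¹) * D := by
  have hpos : (0 : ℝ) < l.length := by
    exact_mod_cast List.length_pos_iff.mpr (List.ne_nil_of_mem hp)
  have h1 : p - bary l = (l.length : ℝ)⁻¹ • (l.map fun x => p - x).sum := by
    have h2 : ∀ l : List E, (l.map fun x => p - x).sum = (l.length : ℝ) • p - l.sum := by
      intro l
      induction l with
      | nil => simp
      | cons q l ih =>
        rw [List.map_cons, List.sum_cons, ih, List.length_cons, List.sum_cons]
        push_cast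
        rw [add_smul, one_smul]
        abel
    rw [h2, smul_sub, smul_smul, inv_mul_cancel₀ hpos.ne', one_smul, bary]
  have h3 : ∀ l : List E, ‖(l.map fun x => p - x).sum‖ ≤ (l.map fun x => dist p x).sum := by
    intro l
    induction l with
    | nil => simp
    | cons q l ih =>
      rw [List.map_cons, List.sum_cons, List.map_cons, List.sum_cons]
      refine (norm_add_le _ _).trans (add_le_add ?_ ih)
      rw [dist_eq_norm]
  have h4 : (l.map fun x => dist p x).sum ≤ ((l.length : ℝ) - 1) * D := by
    have hperm := List.perm_cons_erase hp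
    have h5 : (l.map fun x => dist p x).sum =
        ((p :: l.erase p).map fun x => dist p x).sum := (hperm.map _).sum_eq
    rw [h5, List.map_cons, List.sum_cons, dist_self, zero_add]
    have h6 : ∀ l' : List E, (∀ x ∈ l', dist p x ≤ D) →
        (l'.map fun x => dist p x).sum ≤ (l'.length : ℝ) * D := by
      intro l'
      induction l' with
      | nil => intro _; simp
      | cons q l' ih =>
        intro h
        rw [List.map_cons, List.sum_cons, List.length_cons]
        have h7 := h q (by simp)
        have h8 := ih fun x hx => h x (List.mem_cons_of_mem _ hx)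
        push_cast
        linarith
    refine (h6 (l.erase p) fun x hx => hD p hp x (List.mem_of_mem_erase hx)).trans ?_
    rw [List.length_erase_of_mem hp]
    have h9 : 1 ≤ l.length := List.length_pos_iff.mpr (List.ne_nil_of_mem hp)
    rw [Nat.cast_sub h9, Nat.cast_one]
  rw [dist_eq_norm, h1, norm_smul, Real.norm_of_nonneg (by positivity)]
  calc (l.length : ℝ)⁻¹ * ‖(l.map fun x => p - x).sum‖
      ≤ (l.length : ℝ)⁻¹ * (((l.length : ℝ) - 1) * D) :=
        mul_le_mul_of_nonneg_left ((h3 l).trans h4) (by positivity)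
    _ = (1 - (l.length : ℝ)⁻¹) * D := by
        field_simp

/-! ### The subdivision operator -/

/-- the subdivision of the lists of length `m` -/
noncomputable def Sdm : ℕ → (LC k E →ₗ[k] LC k E)
  | 0 => LinearMap.id
  | m + 1 => Finsupp.linearCombination k fun l => cone k (bary l) (Sdm m (bdl k l))

/-- the barycentric subdivision -/
noncomputable def Sd : LC k E →ₗ[k] LC k E :=
  Finsupp.linearCombination k fun l => Sdm k l.length (Finsupp.single l 1)

theorem Sd_single (l : List E) :
    Sd k (Finsupp.single l 1) = Sdm k l.length (Finsupp.single l 1) := by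
  rw [Sd, Finsupp.linearCombination_single, one_smul]

theorem Sdm_eq (m : ℕ) {c : LC k E} (hc : c ∈ Sup k fun l => l.length = m) :
    Sdm k m c = Sd k c := by
  have h := map_Sup (k := k) (A := fun l : List E => l.length = m) (N := ⊥)
    (f := Sdm k m - Sd k) (fun l hl => by
      rw [Submodule.mem_bot, LinearMap.sub_apply, Sd_single, hl, sub_self]) hc
  rw [Submodule.mem_bot, LinearMap.sub_apply, sub_eq_zero] at h
  exact h

@[simp] theorem Sd_nil : Sd k (Finsupp.single ([] : List E) 1) = Finsupp.single [] 1 := by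
  rw [Sd_single, List.length_nil, Sdm, LinearMap.id_apply]

theorem Sd_of_ne {l : List E} (hl : l ≠ []) :
    Sd k (Finsupp.single l 1) = cone k (bary l) (Sd k (bdl k l)) := by
  obtain ⟨p, l', rfl⟩ := List.exists_cons_of_ne_nil hl
  rw [Sd_single, List.length_cons, Sdm, Finsupp.linearCombination_single, one_smul]
  congr 1
  refine Sdm_eq k l'.length (Sup_mono (fun l'' h => ?_) (bdl_mem _))
  have := h.2
  rw [List.length_cons] at this
  omega

private theorem bd_Sd_aux (m : ℕ) : ∀ l : List E, l.length = m →
    bd k (Sd k (Finsupp.single l 1)) = Sd k (bdl k l) := by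
  induction m with
  | zero =>
    intro l hl
    have : l = [] := List.length_eq_zero_iff.mp hl
    subst this
    rw [Sd_nil, bd_single_one, bdl_nil, map_zero]
  | succ m ih =>
    intro l hl
    have hne : l ≠ [] := by
      rintro rfl
      simp at hl
    have h1 : bdl k l ∈ Sup k fun l' => l'.length = m :=
      Sup_mono (fun l' h' => by have := h'.2; omega) (bdl_mem l)
    have h2 : bd k (Sd k (bdl k l)) = Sd k (bd k (bdl k l)) := by
      have h := map_Sup (k := k) (A := fun l : List E => l.length = m) (N := ⊥)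
        (f := (bd k).comp (Sd k) - (Sd k).comp (bd k)) (fun l hl => by
          rw [Submodule.mem_bot, LinearMap.sub_apply, LinearMap.comp_apply, LinearMap.comp_apply,
            ih l hl, bd_single_one, sub_self]) h1
      rw [Submodule.mem_bot, LinearMap.sub_apply, sub_eq_zero] at h
      exact h
    rw [Sd_of_ne k hne, bd_cone, h2, bd_bdl, map_zero, map_zero, sub_zero]

theorem bd_Sd (c : LC k E) : bd k (Sd k c) = Sd k (bd k c) := by
  have h : (bd k).comp (Sd k) = (Sd k).comp (bd k (P := E)) := by
    refine lc_ext k fun l => ?_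
    rw [LinearMap.comp_apply, LinearMap.comp_apply, bd_Sd_aux k l.length l rfl, bd_single_one]
  exact LinearMap.congr_fun h c

/-- the iterated subdivision is a chain map -/
theorem bd_SdN (N : ℕ) (c : LC k E) : bd k ((Sd k ^ N) c) = (Sd k ^ N) (bd k c) := by
  induction N generalizing c with
  | zero => rfl
  | succ N ih => rw [pow_succ, Module.End.mul_apply, Module.End.mul_apply, ih, bd_Sd]

theorem SdN_nil (N : ℕ) : (Sd k ^ N) (Finsupp.single ([] : List E) 1) = Finsupp.single [] 1 := by
  induction N with
  | zero => rfl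
  | succ N ih => rw [pow_succ, Module.End.mul_apply, Sd_nil, ih]

variable {k}

private theorem Sd_mem_aux (m : ℕ) : ∀ (l : List E) (D : ℝ), l.length = m →
    (∀ x ∈ l, ∀ y ∈ l, dist x y ≤ D) →
    Sd k (Finsupp.single l 1) ∈ Sup k fun l' => (∀ x ∈ l', x ∈ hull l) ∧ l'.length = l.length ∧
      ∀ x ∈ l', ∀ y ∈ l', dist x y ≤ (1 - (l.length : ℝ)⁻¹) * D := by
  induction m with
  | zero =>
    intro l D hl _
    have : l = [] := List.length_eq_zero_iff.mp hl
    subst this
    rw [Sd_nil]
    exact single_mem_Sup ⟨by simp, rfl, by simp⟩ 1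
  | succ m ih =>
    intro l D hl hD
    have hne : l ≠ [] := by
      rintro rfl
      simp at hl
    have hD0 : 0 ≤ D := by
      obtain ⟨p, hp⟩ := List.exists_mem_of_ne_nil l hne
      exact dist_nonneg.trans (hD p hp p hp)
    rw [Sd_of_ne k hne]
    have h1 : Sd k (bdl k l) ∈ Sup k fun l' => (∀ x ∈ l', x ∈ hull l) ∧ l'.length = m ∧
        ∀ x ∈ l', ∀ y ∈ l', dist x y ≤ (1 - (l.length : ℝ)⁻¹) * D := by
      refine map_Sup (A := fun l' => List.Sublist l' l ∧ l'.length + 1 = l.length)
        (fun l' h' => ?_) (bdl_mem l)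
      have hlen : l'.length = m := by have := h'.2; omega
      refine Sup_mono (fun l'' h'' => ⟨fun x hx => hull_sublist h'.1 (h''.1 x hx),
        h''.2.1.trans hlen, fun x hx y hy => ?_⟩)
        (ih l' D hlen fun x hx y hy => hD x (h'.1.subset hx) y (h'.1.subset hy))
      refine (h''.2.2 x hx y hy).trans (mul_le_mul_of_nonneg_right ?_ hD0)
      have h0 : l'' ≠ [] := List.ne_nil_of_mem hx
      have h2 : 0 < l'.length := by
        rw [← h''.2.1]
        exact List.length_pos_iff.mpr h0
      have h3 : ((l.length : ℝ))⁻¹ ≤ ((l'.length : ℝ))⁻¹ := by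
        refine inv_anti₀ (by exact_mod_cast h2) ?_
        have := h'.2
        exact_mod_cast (by omega : l'.length ≤ l.length)
      linarith
    refine cone_mem (fun l' h' => ⟨?_, ?_, ?_⟩) h1
    · intro x hx
      rcases List.mem_cons.mp hx with rfl | hx
      · exact bary_mem hne
      · exact h'.1 x hx
    · rw [List.length_cons, h'.2.1, hl]
    · have hb : ∀ x ∈ l', dist x (bary l) ≤ (1 - (l.length : ℝ)⁻¹) * D := by
        intro x hx
        obtain ⟨y, hy, h3⟩ := convexHull_exists_dist_ge (h'.1 x hx) (bary l)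
        exact h3.trans (dist_bary hD hy)
      have hr : 0 ≤ (1 - (l.length : ℝ)⁻¹) * D := by
        refine mul_nonneg ?_ hD0
        rw [sub_nonneg]
        refine inv_le_one_of_one_le₀ ?_
        exact_mod_cast (by omega : 1 ≤ l.length)
      intro x hx y hy
      rcases List.mem_cons.mp hx with rfl | hx <;> rcases List.mem_cons.mp hy with rfl | hy
      · rw [dist_self]; exact hr
      · rw [dist_comm]; exact hb y hy
      · exact hb x hx
      · exact h'.2.2 x hx y hy

/-- the lists of the iterated subdivision of `l` are in the convex hull of `l` and small -/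
theorem SdN_mem (N : ℕ) {l : List E} {D : ℝ} (hD : ∀ x ∈ l, ∀ y ∈ l, dist x y ≤ D) :
    (Sd k ^ N) (Finsupp.single l 1) ∈ Sup k fun l' => (∀ x ∈ l', x ∈ hull l) ∧
      l'.length = l.length ∧
      ∀ x ∈ l', ∀ y ∈ l', dist x y ≤ (1 - (l.length : ℝ)⁻¹) ^ N * D := by
  induction N with
  | zero =>
    refine single_mem_Sup ⟨fun x hx => mem_hull hx, rfl, fun x hx y hy => ?_⟩ 1
    rw [pow_zero, one_mul]
    exact hD x hx y hy
  | succ N ih =>
    have h1 : (Sd k ^ (N + 1)) (Finsupp.single l 1) = Sd k ((Sd k ^ N) (Finsupp.single l 1)) := by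
      rw [pow_succ', Module.End.mul_apply]
    rw [h1]
    refine map_Sup (fun l' h' => ?_) ih
    refine Sup_mono (fun l'' h'' => ⟨fun x hx => hull_mono h'.1 (h''.1 x hx),
      h''.2.1.trans h'.2.1, fun x hx y hy => ?_⟩)
      (Sd_mem_aux l'.length l' ((1 - (l.length : ℝ)⁻¹) ^ N * D) rfl h'.2.2)
    refine (h''.2.2 x hx y hy).trans (le_of_eq ?_)
    rw [h'.2.1, pow_succ]
    ring

/-- enough subdivisions make a finite family of lists as small as we want -/
theorem exists_SdN {c : LC k E} {m : ℕ} (hc : c ∈ Sup k fun l => l.length = m) {ε : ℝ}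
    (hε : 0 < ε) : ∃ N, ∀ l, c l ≠ 0 → (Sd k ^ N) (Finsupp.single l 1) ∈ Sup k fun l' =>
      (∀ x ∈ l', x ∈ hull l) ∧ l'.length = l.length ∧ ∀ x ∈ l', ∀ y ∈ l', dist x y < ε := by
  classical
  rcases Nat.eq_zero_or_pos m with hm | hm
  · refine ⟨0, fun l hl => ?_⟩
    have h1 : l = [] := List.length_eq_zero_iff.mp ((mem_Sup.mp hc l hl).trans hm)
    subst h1
    exact single_mem_Sup ⟨by simp, rfl, by simp⟩ 1
  · -- a common bound for the diameters
    obtain ⟨D, hD0, hD⟩ : ∃ D : ℝ, 0 ≤ D ∧ ∀ l ∈ c.support, ∀ x ∈ l, ∀ y ∈ l, dist x y ≤ D := by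
      refine ⟨∑ l ∈ c.support, ∑ x ∈ l.toFinset, ∑ y ∈ l.toFinset, dist x y, by positivity, ?_⟩
      intro l hl x hx y hy
      have h1 : dist x y ≤ ∑ y ∈ l.toFinset, dist x y :=
        Finset.single_le_sum (f := fun y => dist x y) (fun _ _ => dist_nonneg)
          (List.mem_toFinset.mpr hy)
      have h2 : ∑ y ∈ l.toFinset, dist x y ≤ ∑ x ∈ l.toFinset, ∑ y ∈ l.toFinset, dist x y :=
        Finset.single_le_sum (f := fun x => ∑ y ∈ l.toFinset, dist x y)
          (fun _ _ => Finset.sum_nonneg fun _ _ => dist_nonneg) (List.mem_toFinset.mpr hx)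
      have h3 : ∑ x ∈ l.toFinset, ∑ y ∈ l.toFinset, dist x y ≤
          ∑ l ∈ c.support, ∑ x ∈ l.toFinset, ∑ y ∈ l.toFinset, dist x y :=
        Finset.single_le_sum (f := fun l : List E => ∑ x ∈ l.toFinset, ∑ y ∈ l.toFinset, dist x y)
          (fun _ _ => Finset.sum_nonneg fun _ _ => Finset.sum_nonneg fun _ _ => dist_nonneg) hl
      exact h1.trans (h2.trans h3)
    have hr0 : 0 ≤ 1 - ((m : ℝ))⁻¹ := by
      rw [sub_nonneg]
      refine inv_le_one_of_one_le₀ ?_
      exact_mod_cast hm
    have hr1 : 1 - ((m : ℝ))⁻¹ < 1 := by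
      have : (0 : ℝ) < ((m : ℝ))⁻¹ := by
        rw [inv_pos]
        exact_mod_cast hm
      linarith
    obtain ⟨N, hN⟩ := exists_pow_lt_of_lt_one (show (0 : ℝ) < ε / (D + 1) by positivity) hr1
    refine ⟨N, fun l hl => ?_⟩
    have hlm : l.length = m := mem_Sup.mp hc l hl
    refine Sup_mono (fun l' h' => ⟨h'.1, h'.2.1, fun x hx y hy => ?_⟩)
      (SdN_mem N (hD l (Finsupp.mem_support_iff.mpr hl)))
    refine (h'.2.2 x hx y hy).trans_lt ?_
    rw [hlm]
    calc (1 - ((m : ℝ))⁻¹) ^ N * D ≤ (1 - ((m : ℝ))⁻¹) ^ N * (D + 1) :=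
          mul_le_mul_of_nonneg_left (by linarith) (pow_nonneg hr0 N)
      _ < ε / (D + 1) * (D + 1) := mul_lt_mul_of_pos_right hN (by linarith)
      _ = ε := by field_simp

/-- a linear map applied to a chain: membership can be checked on the lists of the chain -/
theorem map_mem_of {M : Type*} [AddCommGroup M] [Module k M] {N : Submodule k M} {P : Type*}
    {f : LC k P →ₗ[k] M} {c : LC k P} (h : ∀ l, c l ≠ 0 → f (Finsupp.single l 1) ∈ N) :
    f c ∈ N :=
  map_Sup (A := fun l => c l ≠ 0) h (mem_Sup.mpr fun _ hl => hl)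

end Pool.Agent.Lib.MP_fd6ff4_co.R43.Top
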