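import Mathlib
import Pool.Agent.Lib.MP_fd6ff4_co.R43.Top.Subdiv

/-!
# A generic apex

Finitely many simplices with at most `m - 1` vertices in the ball of dimension `m` which do not
contain a point `p` have a common apex `q` such that the cones do not contain `p`.
-/

set_option autoImplicit false

open MeasureTheory

namespace Pool.Agent.Lib.MP_fd6ff4_co.R43.Top

variable {m : ℕ}

/-- the affine subspace through `p` and the points of the list -/
private noncomputable def asp (p : EuclideanSpace ℝ (Fin m))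
    (l : List (EuclideanSpace ℝ (Fin m))) : AffineSubspace ℝ (EuclideanSpace ℝ (Fin m)) :=
  AffineSubspace.mk' p (Submodule.span ℝ {x | ∃ y ∈ l, x = y - p})

private theorem asp_ne_top {p : EuclideanSpace ℝ (Fin m)} {l : List (EuclideanSpace ℝ (Fin m))}
    (hl : l.length < m) : asp p l ≠ ⊤ := by
  classical
  intro h
  have h1 : (asp p l).direction = ⊤ := by rw [h, AffineSubspace.direction_top]
  rw [asp, AffineSubspace.direction_mk'] at h1
  have h2 : {x | ∃ y ∈ l, x = y - p} = ((l.toFinset.image fun y => y - p : Finset _) : Set _) := by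
    ext x
    simp only [Set.mem_ofPred_eq, Finset.coe_image, Set.mem_image, Finset.mem_coe,
      List.mem_toFinset]
    constructor
    · rintro ⟨y, hy, rfl⟩
      exact ⟨y, hy, rfl⟩
    · rintro ⟨y, hy, rfl⟩
      exact ⟨y, hy, rfl⟩
  have h3 : Module.finrank ℝ (Submodule.span ℝ {x | ∃ y ∈ l, x = y - p}) ≤ l.length := by
    rw [h2]
    refine (finrank_span_finset_le_card _).trans (Finset.card_image_le.trans ?_)
    exact List.toFinset_card_le l
  rw [h1, finrank_top, finrank_euclideanSpace, Fintype.card_fin] at h3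
  omega

theorem exists_apex {S : Finset (List (EuclideanSpace ℝ (Fin m)))}
    {p : EuclideanSpace ℝ (Fin m)} (hS : ∀ l ∈ S, l.length < m ∧ p ∉ hull l) (hm : 1 ≤ m) :
    ∃ q ∈ Metric.closedBall (0 : EuclideanSpace ℝ (Fin m)) 1, ∀ l ∈ S, p ∉ hull (q :: l) := by
  classical
  -- the union of the subspaces is a null set
  have h0 : volume (⋃ l ∈ S, (asp p l : Set (EuclideanSpace ℝ (Fin m)))) = 0 := by
    have h := (measure_biUnion_null_iff (μ := volume)
      (s := fun l => (asp p l : Set (EuclideanSpace ℝ (Fin m)))) (Finset.countable_toSet S)).mpr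
      fun l hl => Measure.addHaar_affineSubspace volume _ (asp_ne_top (hS l hl).1)
    exact h
  have h1 : 0 < volume (Metric.ball (0 : EuclideanSpace ℝ (Fin m)) 1) :=
    Metric.measure_ball_pos volume 0 one_pos
  have h2 : ¬ Metric.closedBall (0 : EuclideanSpace ℝ (Fin m)) 1 ⊆
      (⋃ l ∈ S, (asp p l : Set (EuclideanSpace ℝ (Fin m)))) ∪ {p} := by
    intro h
    have h3 : volume ((⋃ l ∈ S, (asp p l : Set (EuclideanSpace ℝ (Fin m)))) ∪ {p}) = 0 := by
      have : Nonempty (Fin m) := ⟨⟨0, hm⟩⟩
      rw [measure_union_null_iff]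
      exact ⟨h0, measure_singleton p⟩
    exact absurd (measure_mono_null (Metric.ball_subset_closedBall.trans h) h3) h1.ne'
  obtain ⟨q, hq, hq'⟩ := Set.not_subset.mp h2
  refine ⟨q, hq, fun l hl hp => hq' ?_⟩
  by_cases hnil : l = []
  · subst hnil
    have h3 : p ∈ convexHull ℝ {x | x ∈ [q]} := hp
    have h4 : {x | x ∈ [q]} = {q} := by ext x; simp
    rw [h4, convexHull_singleton, Set.mem_singleton_iff] at h3
    exact Or.inr h3.symm
  left
  simp only [Set.mem_iUnion]
  refine ⟨l, hl, ?_⟩
  have h3 : p ∈ convexHull ℝ (insert q {x | x ∈ l}) := by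
    have h4 : {x | x ∈ q :: l} = insert q {x | x ∈ l} := by
      ext x
      simp
    rw [← h4]
    exact hp
  have hne : ({x | x ∈ l} : Set (EuclideanSpace ℝ (Fin m))).Nonempty :=
    List.exists_mem_of_ne_nil l hnil
  rw [convexHull_insert hne, mem_convexJoin] at h3
  obtain ⟨q', hq'', y, hy, h5⟩ := h3
  rw [Set.mem_singleton_iff] at hq''
  subst hq''
  obtain ⟨a, b, ha, hb, hab, h6⟩ := h5
  -- the coefficient of `q` is positive
  have ha0 : a ≠ 0 := by
    rintro rfl
    rw [zero_add] at hab
    subst hab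
    rw [zero_smul, one_smul, zero_add] at h6
    exact (hS l hl).2 (h6 ▸ hy)
  have h7 : y ∈ asp p l := by
    refine convexHull_min (s := {x | x ∈ l}) (t := (asp p l : Set _)) ?_
      (asp p l).convex hy
    intro x hx
    rw [asp, SetLike.mem_coe, AffineSubspace.mem_mk', vsub_eq_sub]
    exact Submodule.subset_span ⟨x, hx, rfl⟩
  rw [SetLike.mem_coe, asp, AffineSubspace.mem_mk', vsub_eq_sub]
  rw [asp, AffineSubspace.mem_mk', vsub_eq_sub] at h7
  have h8 : q' - p = (-(b / a)) • (y - p) := by
    have h9 : a • (q' - p) = -(b • (y - p)) := by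
      have h10 : p = (a + b) • p := by rw [hab, one_smul]
      have h11 : a • q' + b • y = (a + b) • p := by rw [h6]; exact h10
      rw [smul_sub, smul_sub, ← sub_eq_zero]
      rw [add_smul] at h11
      have h12 : a • q' - a • p - -(b • y - b • p) = (a • q' + b • y) - (a • p + b • p) := by abel
      rw [h12, h11, sub_self]
    have h13 : q' - p = a⁻¹ • (a • (q' - p)) := by rw [smul_smul, inv_mul_cancel₀ ha0, one_smul]
    rw [h13, h9, smul_neg, smul_smul, neg_smul, div_eq_inv_mul]
  rw [h8]
  exact Submodule.smul_mem _ _ h7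

end Pool.Agent.Lib.MP_fd6ff4_co.R43.Top
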