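import Mathlib
import Pool.Agent.Lib.MP_fd6ff4_co.R43.Top.ListChain

/-!
# Acyclic carriers for list chains
-/

set_option autoImplicit false

namespace Pool.Agent.Lib.MP_fd6ff4_co.R43.Top

variable {k : Type*} [CommRing k] {P V : Type*}

/-- the homotopy which contracts `φ` -/
noncomputable def Dm (φ : LC k P →ₗ[k] LC k V) (v : List P → V) : ℕ → (LC k P →ₗ[k] LC k V)
  | 0 => 0
  | m + 1 => Finsupp.linearCombination k fun l =>
      cone k (v l) (φ (Finsupp.single l 1) - Dm φ v m (bdl k l))

theorem Dm_succ (φ : LC k P →ₗ[k] LC k V) (v : List P → V) (m : ℕ) (l : List P) :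
    Dm φ v (m + 1) (Finsupp.single l 1) =
      cone k (v l) (φ (Finsupp.single l 1) - Dm φ v m (bdl k l)) := by
  rw [Dm, Finsupp.linearCombination_single, one_smul]

theorem Dm_bd {A : List P → Prop} (hA : ∀ l l', A l → List.Sublist l' l → A l')
    {φ : LC k P →ₗ[k] LC k V} (v : List P → V)
    (hφ : ∀ l, A l → bd k (φ (Finsupp.single l 1)) = φ (bdl k l))
    (h0 : φ (Finsupp.single [] 1) = 0) (m : ℕ) :
    ∀ c ∈ Sup k (fun l => A l ∧ l.length = m),
      bd k (Dm φ v m c) = φ c - Dm φ v (m - 1) (bd k c) := by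
  induction m with
  | zero =>
    intro c hc
    have h : (bd k).comp (Dm φ v 0) c - (φ c - Dm φ v 0 (bd k c)) ∈ (⊥ : Submodule k (LC k V)) := by
      have := map_Sup (k := k) (A := fun l : List P => A l ∧ l.length = 0) (N := ⊥)
        (f := (bd k).comp (Dm φ v 0) - (φ - (Dm φ v 0).comp (bd k))) (fun l hl => by
          have h1 : l = [] := List.length_eq_zero_iff.mp hl.2
          subst h1
          rw [Submodule.mem_bot, LinearMap.sub_apply, LinearMap.sub_apply, LinearMap.comp_apply,
            LinearMap.comp_apply, h0, Dm, LinearMap.zero_apply, LinearMap.zero_apply, map_zero,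
            sub_zero, sub_zero]) hc
      exact this
    rw [Submodule.mem_bot, sub_eq_zero] at h
    exact h
  | succ m ih =>
    intro c hc
    have h := map_Sup (k := k) (A := fun l : List P => A l ∧ l.length = m + 1) (N := ⊥)
        (f := (bd k).comp (Dm φ v (m + 1)) - (φ - (Dm φ v m).comp (bd k))) (fun l hl => by
          have h1 : bdl k l ∈ Sup k (fun l => A l ∧ l.length = m) :=
            Sup_mono (fun l' h' => ⟨hA l l' hl.1 h'.1, by have := h'.2; have := hl.2; omega⟩)
              (bdl_mem l)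
          have h2 := ih _ h1
          rw [bd_bdl, map_zero, sub_zero] at h2
          rw [Submodule.mem_bot, LinearMap.sub_apply, LinearMap.sub_apply, LinearMap.comp_apply,
            LinearMap.comp_apply, Dm_succ, bd_cone, map_sub, h2, hφ l hl.1, sub_self, map_zero,
            sub_zero, bd_single_one, sub_self]) hc
    rw [Submodule.mem_bot, LinearMap.sub_apply, sub_eq_zero] at h
    exact h

theorem Dm_mem {A : List P → Prop} (hA : ∀ l l', A l → List.Sublist l' l → A l')
    {φ : LC k P →ₗ[k] LC k V} {v : List P → V} {τ : List P → V → Prop}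
    (hτ : ∀ l l', A l → List.Sublist l' l → ∀ x, τ l' x → τ l x)
    (hφ : ∀ l, A l → φ (Finsupp.single l 1) ∈ Sup k fun l' => (∀ x ∈ l', τ l x) ∧
      l'.length = l.length)
    (hv : ∀ l, A l → l ≠ [] → τ l (v l)) (m : ℕ) :
    ∀ l, A l → l.length = m → Dm φ v m (Finsupp.single l 1) ∈ Sup k fun l' =>
      (∀ x ∈ l', τ l x) ∧ l'.length = m + 1 := by
  induction m with
  | zero =>
    intro l _ _
    rw [Dm, LinearMap.zero_apply]
    exact Submodule.zero_mem _
  | succ m ih =>
    intro l hl hlen
    have hne : l ≠ [] := by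
      rintro rfl
      simp at hlen
    rw [Dm_succ]
    have h1 : φ (Finsupp.single l 1) - Dm φ v m (bdl k l) ∈
        Sup k fun l' => (∀ x ∈ l', τ l x) ∧ l'.length = m + 1 := by
      refine Submodule.sub_mem _ ?_ ?_
      · exact Sup_mono (fun l' h' => ⟨h'.1, h'.2.trans hlen⟩) (hφ l hl)
      · refine map_Sup (A := fun l' => List.Sublist l' l ∧ l'.length + 1 = l.length)
          (fun l' h' => ?_) (bdl_mem l)
        refine Sup_mono (fun l'' h'' => ⟨fun x hx => hτ l l' hl h'.1 x (h''.1 x hx), h''.2⟩)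
          (ih l' (hA l l' hl h'.1) ?_)
        have := h'.2
        omega
    refine cone_mem (fun l' h' => ⟨?_, ?_⟩) h1
    · intro x hx
      rcases List.mem_cons.mp hx with rfl | hx
      · exact hv l hl hne
      · exact h'.1 x hx
    · rw [List.length_cons, h'.2]

/-- Acyclic carriers: two chain maps `φ`, `ψ` with the same full simplices as carriers are homologous
on cycles. -/
theorem carrier {A : List P → Prop} (hA : ∀ l l', A l → List.Sublist l' l → A l')
    {φ ψ : LC k P →ₗ[k] LC k V} {τ : List P → V → Prop}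
    (hτ : ∀ l l', A l → List.Sublist l' l → ∀ x, τ l' x → τ l x)
    (hφ : ∀ l, A l → φ (Finsupp.single l 1) ∈ Sup k fun l' => (∀ x ∈ l', τ l x) ∧
      l'.length = l.length)
    (hψ : ∀ l, A l → ψ (Finsupp.single l 1) ∈ Sup k fun l' => (∀ x ∈ l', τ l x) ∧
      l'.length = l.length)
    (hφb : ∀ l, A l → bd k (φ (Finsupp.single l 1)) = φ (bdl k l))
    (hψb : ∀ l, A l → bd k (ψ (Finsupp.single l 1)) = ψ (bdl k l))
    (h0 : φ (Finsupp.single [] 1) = ψ (Finsupp.single [] 1))
    (hv : ∀ l, A l → l ≠ [] → ∃ x, τ l x) {m : ℕ} {B : List V → Prop}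
    (hB : ∀ l, A l → l.length = m → ∀ l', (∀ x ∈ l', τ l x) → l'.length = m + 1 → B l')
    {c : LC k P} (hc : c ∈ Sup k fun l => A l ∧ l.length = m) (hcyc : bd k c = 0) :
    ∃ b ∈ Sup k B, φ c - ψ c = bd k b := by
  classical
  rcases isEmpty_or_nonempty V with hV | hV
  · -- all the lists are empty
    have hm : ∀ l, A l → l = [] := by
      intro l hl
      by_contra hne
      obtain ⟨x, _⟩ := hv l hl hne
      exact hV.elim x
    refine ⟨0, Submodule.zero_mem _, ?_⟩
    have h := map_Sup (k := k) (A := fun l : List P => A l ∧ l.length = m) (N := ⊥)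
        (f := φ - ψ) (fun l hl => by
          rw [hm l hl.1, Submodule.mem_bot, LinearMap.sub_apply, h0, sub_self]) hc
    rw [Submodule.mem_bot, LinearMap.sub_apply] at h
    rw [h, map_zero]
  · let v : List P → V := fun l => if h : ∃ x, τ l x then h.choose else Classical.arbitrary V
    have hv' : ∀ l, A l → l ≠ [] → τ l (v l) := by
      intro l hl hne
      have h := hv l hl hne
      simp only [v, dif_pos h]
      exact h.choose_spec
    refine ⟨Dm (φ - ψ) v m c, ?_, ?_⟩
    · refine map_Sup (A := fun l => A l ∧ l.length = m) (fun l hl => ?_) hc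
      refine Sup_mono (fun l' h' => hB l hl.1 hl.2 l' h'.1 h'.2)
        (Dm_mem hA hτ (fun l hl => ?_) hv' m l hl.1 hl.2)
      rw [LinearMap.sub_apply]
      exact Submodule.sub_mem _ (hφ l hl) (hψ l hl)
    · have h1 : (φ - ψ) (Finsupp.single [] 1) = 0 := by
        rw [LinearMap.sub_apply, h0, sub_self]
      have h2 : ∀ l, A l → bd k ((φ - ψ) (Finsupp.single l 1)) = (φ - ψ) (bdl k l) := by
        intro l hl
        rw [LinearMap.sub_apply, map_sub, hφb l hl, hψb l hl, LinearMap.sub_apply]
      rw [Dm_bd hA v h2 h1 m c hc, hcyc, map_zero, sub_zero, LinearMap.sub_apply]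

end Pool.Agent.Lib.MP_fd6ff4_co.R43.Top
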