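import Mathlib
import Pool.Agent.Lib.MP_fd6ff4_co.R43.Statement
import Pool.Agent.Lib.MP_fd6ff4_co.R43.Top.Subdiv

/-!
# Points of the geometric realization, closed faces, the vertex map
-/

set_option autoImplicit false

open Finset

namespace Pool.Agent.Lib.MP_fd6ff4_co.R43.Top

variable {n : ℕ}

/-- the closed face with the vertex set `G` -/
def cface (G : Finset (Fin n)) : Set (Fin n → ℝ) :=
  {x | (∀ j, 0 ≤ x j) ∧ ∑ j, x j = 1 ∧ ∀ j, j ∉ G → x j = 0}

theorem mem_spt {x : Fin n → ℝ} {j : Fin n} : j ∈ spt x ↔ x j ≠ 0 := by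
  rw [spt, mem_filter]
  simp

theorem cface_mono {G G' : Finset (Fin n)} (h : G ⊆ G') : cface G ⊆ cface G' :=
  fun _ hx => ⟨hx.1, hx.2.1, fun j hj => hx.2.2 j fun h' => hj (h h')⟩

theorem spt_subset_of_mem {G : Finset (Fin n)} {x : Fin n → ℝ} (hx : x ∈ cface G) :
    spt x ⊆ G := by
  intro j hj
  by_contra h
  exact mem_spt.mp hj (hx.2.2 j h)

theorem mem_cface_spt {Γ : Finset (Finset (Fin n))} {x : Fin n → ℝ} (hx : x ∈ geom Γ) :
    x ∈ cface (spt x) :=
  ⟨hx.1, hx.2.1, fun _ hj => not_not.mp fun h => hj (mem_spt.mpr h)⟩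

theorem mem_geom_of_cface {Γ : Finset (Finset (Fin n))} (hΓ : ∀ F ∈ Γ, ∀ G, G ⊆ F → G ∈ Γ)
    {G : Finset (Fin n)} (hG : G ∈ Γ) {x : Fin n → ℝ} (hx : x ∈ cface G) : x ∈ geom Γ :=
  ⟨hx.1, hx.2.1, hΓ G hG _ (spt_subset_of_mem hx)⟩

theorem convex_cface (G : Finset (Fin n)) : Convex ℝ (cface G) := by
  intro x hx y hy a b ha hb hab
  refine ⟨fun j => ?_, ?_, fun j hj => ?_⟩
  · simp only [Pi.add_apply, Pi.smul_apply, smul_eq_mul]
    have := hx.1 j
    have := hy.1 j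
    positivity
  · simp only [Pi.add_apply, Pi.smul_apply, smul_eq_mul]
    rw [sum_add_distrib, ← mul_sum, ← mul_sum, hx.2.1, hy.2.1, mul_one, mul_one, hab]
  · simp only [Pi.add_apply, Pi.smul_apply, smul_eq_mul]
    rw [hx.2.2 j hj, hy.2.2 j hj]
    ring

theorem isClosed_cface (G : Finset (Fin n)) : IsClosed (cface G) := by
  have h1 : cface G = (⋂ j, {x : Fin n → ℝ | 0 ≤ x j}) ∩ {x | ∑ j, x j = 1} ∩
      ⋂ j, ⋂ (_ : j ∉ G), {x | x j = 0} := by
    ext x
    simp only [cface, Set.mem_inter_iff, Set.mem_iInter]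
    exact ⟨fun h => ⟨⟨h.1, h.2.1⟩, h.2.2⟩, fun h => ⟨h.1.1, h.1.2, h.2⟩⟩
  rw [h1]
  refine IsClosed.inter (IsClosed.inter ?_ ?_) ?_
  · exact isClosed_iInter fun j => isClosed_le continuous_const (continuous_apply j)
  · exact isClosed_eq (continuous_finsetSum _ fun j _ => continuous_apply j) continuous_const
  · exact isClosed_iInter fun j => isClosed_iInter fun _ =>
      isClosed_eq (continuous_apply j) continuous_const

theorem isCompact_cface (G : Finset (Fin n)) : IsCompact (cface G) := by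
  refine Metric.isCompact_of_isClosed_isBounded (isClosed_cface G) ?_
  refine (Metric.isBounded_closedBall (x := (0 : Fin n → ℝ)) (r := 1)).subset fun x hx => ?_
  rw [Metric.mem_closedBall, dist_zero_right, pi_norm_le_iff_of_nonneg zero_le_one]
  intro j
  rw [Real.norm_of_nonneg (hx.1 j), ← hx.2.1]
  exact single_le_sum (fun i _ => hx.1 i) (mem_univ j)

theorem geom_eq {Γ : Finset (Finset (Fin n))} (hΓ : ∀ F ∈ Γ, ∀ G, G ⊆ F → G ∈ Γ) :
    geom Γ = ⋃ G ∈ Γ, cface G := by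
  ext x
  simp only [Set.mem_iUnion]
  constructor
  · intro hx
    exact ⟨spt x, hx.2.2, mem_cface_spt hx⟩
  · rintro ⟨G, hG, hx⟩
    exact mem_geom_of_cface hΓ hG hx

theorem isCompact_geom {Γ : Finset (Finset (Fin n))} (hΓ : ∀ F ∈ Γ, ∀ G, G ⊆ F → G ∈ Γ) :
    IsCompact (geom Γ) := by
  rw [geom_eq hΓ]
  exact Γ.isCompact_biUnion fun G _ => isCompact_cface G

theorem hull_subset_cface {G : Finset (Fin n)} {l : List (Fin n → ℝ)}
    (h : ∀ x ∈ l, x ∈ cface G) : hull l ⊆ cface G :=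
  convexHull_min h (convex_cface G)

/-! ### The vertex map -/

theorem exists_coord (hn : 0 < n) {x : Fin n → ℝ} (hx : ∑ j, x j = 1) :
    ∃ j, (n : ℝ)⁻¹ ≤ x j := by
  by_contra h
  push Not at h
  have h1 : ∑ j, x j < ∑ _j : Fin n, (n : ℝ)⁻¹ :=
    sum_lt_sum_of_nonempty (univ_nonempty_iff.mpr ⟨⟨0, hn⟩⟩) fun j _ => h j
  rw [hx, sum_const, card_univ, Fintype.card_fin, nsmul_eq_mul,
    mul_inv_cancel₀ (by exact_mod_cast hn.ne')] at h1
  exact lt_irrefl _ h1

open Classical in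
/-- a vertex with a large coordinate -/
noncomputable def nu (hn : 0 < n) (x : Fin n → ℝ) : Fin n :=
  if h : ∃ j, (n : ℝ)⁻¹ ≤ x j then h.choose else ⟨0, hn⟩

theorem nu_spec (hn : 0 < n) {x : Fin n → ℝ} (hx : ∑ j, x j = 1) :
    (n : ℝ)⁻¹ ≤ x (nu hn x) := by
  have h := exists_coord hn hx
  rw [nu, dif_pos h]
  exact h.choose_spec

/-- the vertex of `x` is in the support of every near point -/
theorem nu_mem_spt (hn : 0 < n) {x y : Fin n → ℝ} (hx : ∑ j, x j = 1)
    (h : dist x y < (n : ℝ)⁻¹) : nu hn x ∈ spt y := by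
  rw [mem_spt]
  intro h0
  have h1 := nu_spec hn hx
  have h2 := dist_le_pi_dist x y (nu hn x)
  rw [h0, Real.dist_eq, sub_zero] at h2
  have h3 := le_abs_self (x (nu hn x))
  linarith

theorem nu_mem_self (hn : 0 < n) {x : Fin n → ℝ} (hx : ∑ j, x j = 1) : nu hn x ∈ spt x :=
  nu_mem_spt hn hx (by rw [dist_self]; positivity)

/-! ### The retraction -/

/-- the barycentre of the face `F` -/
noncomputable def bface (F : Finset (Fin n)) : Fin n → ℝ := fun j => if j ∈ F then (#F : ℝ)⁻¹ else 0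

/-- the smallest coordinate on `F` -/
noncomputable def mc {F : Finset (Fin n)} (hF : F.Nonempty) (x : Fin n → ℝ) : ℝ := F.inf' hF x

theorem continuous_mc {F : Finset (Fin n)} (hF : F.Nonempty) : Continuous (mc hF) :=
  Continuous.finset_inf'_apply hF fun j _ => continuous_apply j

/-- the radial retraction from the barycentre of `F` -/
noncomputable def retr {F : Finset (Fin n)} (hF : F.Nonempty) (x : Fin n → ℝ) : Fin n → ℝ :=
  fun j => (1 - #F * mc hF x)⁻¹ * (x j - if j ∈ F then mc hF x else 0)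

theorem mc_le {F : Finset (Fin n)} (hF : F.Nonempty) (x : Fin n → ℝ) {j : Fin n} (hj : j ∈ F) :
    mc hF x ≤ x j := inf'_le _ hj

theorem exists_mc {F : Finset (Fin n)} (hF : F.Nonempty) (x : Fin n → ℝ) :
    ∃ j ∈ F, mc hF x = x j := exists_mem_eq_inf' hF x

theorem card_mc {F : Finset (Fin n)} (hF : F.Nonempty) {x : Fin n → ℝ} (h0 : ∀ j, 0 ≤ x j)
    (h1 : ∑ j, x j = 1) (hne : x ≠ bface F) : #F * mc hF x < 1 := by
  have h2 : #F * mc hF x ≤ ∑ j ∈ F, x j := by
    have := card_nsmul_le_sum F x (mc hF x) fun j hj => mc_le hF x hj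
    rwa [nsmul_eq_mul] at this
  have h3 : ∑ j ∈ F, x j ≤ 1 := by
    rw [← h1]
    exact sum_le_sum_of_subset_of_nonneg (subset_univ F) fun j _ _ => h0 j
  refine lt_of_le_of_ne (h2.trans h3) fun h4 => hne ?_
  have hF0 : (0 : ℝ) < #F := by exact_mod_cast card_pos.mpr hF
  have h5 : ∑ j ∈ F, x j = 1 := le_antisymm h3 (h4 ▸ h2)
  have h6 : mc hF x = (#F : ℝ)⁻¹ := by
    field_simp
    linarith
  have h7 : ∀ j ∈ F, mc hF x = x j := by
    have h8 : ∑ _j ∈ F, mc hF x = ∑ j ∈ F, x j := by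
      rw [sum_const, nsmul_eq_mul, h4, h5]
    exact (sum_eq_sum_iff_of_le fun j hj => mc_le hF x hj).mp h8
  have h9 : ∑ j ∈ univ \ F, x j = 0 := by
    have := sum_sdiff (subset_univ F) (f := x)
    rw [h5, h1] at this
    linarith
  ext j
  rw [bface]
  split_ifs with hj
  · rw [← h7 j hj, h6]
  · exact (sum_eq_zero_iff_of_nonneg fun j _ => h0 j).mp h9 j (by simp [hj])

theorem retr_spec {F : Finset (Fin n)} (hF : F.Nonempty) {x : Fin n → ℝ} (h0 : ∀ j, 0 ≤ x j)
    (h1 : ∑ j, x j = 1) (hne : x ≠ bface F) :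
    (∀ j, 0 ≤ retr hF x j) ∧ ∑ j, retr hF x j = 1 ∧ spt (retr hF x) ⊆ spt x ∧
      ¬ F ⊆ spt (retr hF x) := by
  have h2 := card_mc hF h0 h1 hne
  have h3 : 0 < 1 - #F * mc hF x := by linarith
  have hmc : 0 ≤ mc hF x := by
    obtain ⟨j, _, hj⟩ := exists_mc hF x
    rw [hj]
    exact h0 j
  refine ⟨fun j => ?_, ?_, fun j hj => ?_, fun h => ?_⟩
  · rw [retr]
    refine mul_nonneg (inv_nonneg.mpr h3.le) ?_
    split_ifs with hj
    · exact sub_nonneg.mpr (mc_le hF x hj)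
    · rw [sub_zero]
      exact h0 j
  · simp only [retr]
    rw [← mul_sum, sum_sub_distrib, h1, sum_ite_mem, univ_inter, sum_const, nsmul_eq_mul,
      inv_mul_cancel₀ h3.ne']
  · rw [mem_spt] at hj ⊢
    intro hx
    apply hj
    rw [retr, hx]
    split_ifs with h4
    · have h5 : mc hF x = 0 := le_antisymm (hx ▸ mc_le hF x h4) hmc
      rw [h5]
      ring
    · ring
  · obtain ⟨j, hj, h4⟩ := exists_mc hF x
    have h5 := mem_spt.mp (h hj)
    rw [retr, if_pos hj, h4, sub_self, mul_zero] at h5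
    exact h5 rfl

theorem retr_eq {F : Finset (Fin n)} (hF : F.Nonempty) {x : Fin n → ℝ} (h0 : ∀ j, 0 ≤ x j)
    (h : ¬ F ⊆ spt x) : retr hF x = x := by
  obtain ⟨j, hj, hj'⟩ := not_subset.mp h
  have h1 : x j = 0 := not_not.mp fun h2 => hj' (mem_spt.mpr h2)
  have h2 : mc hF x = 0 := by
    refine le_antisymm (h1 ▸ mc_le hF x hj) ?_
    obtain ⟨i, _, hi⟩ := exists_mc hF x
    rw [hi]
    exact h0 i
  ext i
  rw [retr, h2]
  simp

theorem continuousOn_retr {F : Finset (Fin n)} (hF : F.Nonempty) :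
    ContinuousOn (retr hF) {x | (#F : ℝ) * mc hF x ≠ 1} := by
  refine continuousOn_pi.mpr fun j => ?_
  refine ContinuousOn.mul (ContinuousOn.inv₀ ?_ fun x hx => ?_) ?_
  · exact (continuous_const.sub (continuous_const.mul (continuous_mc hF))).continuousOn
  · exact sub_ne_zero.mpr (Ne.symm hx)
  · refine ContinuousOn.sub (continuous_apply j).continuousOn ?_
    split_ifs
    · exact (continuous_mc hF).continuousOn
    · exact continuousOn_const

end Pool.Agent.Lib.MP_fd6ff4_co.R43.Top
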