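import Mathlib
import Pool.Agent.Lib.MP_fd6ff4_co.R43.Top.Real
import Pool.Agent.Lib.MP_fd6ff4_co.R43.Top.Carrier

/-!
# Vanishing of the homology by simplicial approximation

`Y` is a finite complex, `hf : |Y| → O` and `G : O → |Y|` are continuous with `G ∘ hf = id`, and `O` is a
subset of a convex set in which small cycles of dimension `m - 1` are boundaries by cones. Then the
cycles of dimension `m - 1` of `Y` are boundaries.
-/

set_option autoImplicit false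

open Finset

namespace Pool.Agent.Lib.MP_fd6ff4_co.R43.Top

variable {k : Type*} [CommRing k] {n : ℕ}

/-- the vertices of the geometric realization -/
noncomputable def vx (j : Fin n) : Fin n → ℝ := Pi.single j 1

theorem vx_mem_cface {G : Finset (Fin n)} {j : Fin n} (hj : j ∈ G) : vx j ∈ cface G := by
  classical
  refine ⟨fun i => ?_, ?_, fun i hi => ?_⟩
  · rw [vx, Pi.single_apply]
    split_ifs
    · exact zero_le_one
    · exact le_refl 0
  · simp only [vx, Pi.single_apply]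
    rw [sum_ite_eq' univ j, if_pos (mem_univ j)]
  · rw [vx, Pi.single_apply, if_neg]
    rintro rfl
    exact hi hj

/-- `ν ∘ Sd^N` is homologous to the identity on the chains of a complex -/
theorem nu_SdN (hn : 0 < n) {Y : Finset (Finset (Fin n))} (hY : ∀ F ∈ Y, ∀ G, G ⊆ F → G ∈ Y)
    (N : ℕ) {m : ℕ} {c : LC k (Fin n)}
    (hc : c ∈ Sup k fun l => l.toFinset ∈ Y ∧ l.length = m) (hcyc : bd k c = 0) :
    ∃ b ∈ Sup k (fun l : List (Fin n) => l.toFinset ∈ Y ∧ l.length = m + 1),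
      lmap k (nu hn) ((Sd k ^ N) (lmap k vx c)) - c = bd k b := by
  classical
  have h := carrier (k := k) (P := Fin n) (V := Fin n) (A := fun l => l.toFinset ∈ Y)
    (fun l l' h1 h2 => hY _ h1 _ fun x hx =>
      List.mem_toFinset.mpr (h2.subset (List.mem_toFinset.mp hx)))
    (φ := (lmap k (nu hn)).comp ((Sd k ^ N).comp (lmap k vx))) (ψ := LinearMap.id)
    (τ := fun l x => x ∈ l) (fun l l' _ h2 x hx => h2.subset hx) ?_ ?_ ?_ ?_ ?_ ?_ (m := m)
    (B := fun l => l.toFinset ∈ Y ∧ l.length = m + 1) ?_ hc hcyc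
  · exact h
  · intro l _
    have hl : ∀ x ∈ l.map (vx (n := n)), x ∈ cface l.toFinset := by
      intro x hx
      obtain ⟨j, hj, rfl⟩ := List.mem_map.mp hx
      exact vx_mem_cface (List.mem_toFinset.mpr hj)
    rw [LinearMap.comp_apply, LinearMap.comp_apply, lmap_single]
    obtain ⟨D, hD⟩ : ∃ D : ℝ, ∀ x ∈ l.map (vx (n := n)), ∀ y ∈ l.map (vx (n := n)),
        dist x y ≤ D := by
      refine ⟨2, fun x hx y hy => ?_⟩
      have h1 : ∀ x ∈ l.map (vx (n := n)), dist x 0 ≤ 1 := by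
        intro x hx
        rw [dist_zero_right, pi_norm_le_iff_of_nonneg zero_le_one]
        intro j
        rw [Real.norm_of_nonneg ((hl x hx).1 j), ← (hl x hx).2.1]
        exact single_le_sum (fun i _ => (hl x hx).1 i) (mem_univ j)
      have h2 := dist_triangle_right x y 0
      have h3 := h1 x hx
      have h4 := h1 y hy
      linarith
    refine lmap_mem (fun l' h' => ⟨fun x hx => ?_, ?_⟩) (SdN_mem (k := k) N hD)
    · obtain ⟨p, hp, rfl⟩ := List.mem_map.mp hx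
      have h1 := hull_subset_cface hl (h'.1 p hp)
      exact List.mem_toFinset.mp (spt_subset_of_mem h1 (nu_mem_self hn h1.2.1))
    · rw [List.length_map, h'.2.1, List.length_map]
  · intro l _
    exact single_mem_Sup ⟨fun x hx => hx, rfl⟩ 1
  · intro l _
    rw [LinearMap.comp_apply, LinearMap.comp_apply, ← lmap_bd, bd_SdN, ← lmap_bd,
      bd_single_one]
    rfl
  · intro l _
    rw [LinearMap.id_apply, LinearMap.id_apply, bd_single_one]
  · rw [LinearMap.comp_apply, LinearMap.comp_apply, lmap_single, List.map_nil, SdN_nil,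
      lmap_single, List.map_nil, LinearMap.id_apply]
  · intro l _ hne
    exact List.exists_mem_of_ne_nil l hne
  · intro l hl _ l' h1 h2
    exact ⟨hY _ hl _ fun x hx => List.mem_toFinset.mpr (h1 x (List.mem_toFinset.mp hx)), h2⟩

/-- the lists of points of a closed face with small diameter -/
def Fine (Y : Finset (Finset (Fin n))) (δ : ℝ) (l : List (Fin n → ℝ)) : Prop :=
  (∃ G ∈ Y, ∀ x ∈ l, x ∈ cface G) ∧ ∀ x ∈ l, ∀ y ∈ l, dist x y < δ

theorem main_abs (hn : 0 < n) {Y : Finset (Finset (Fin n))}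
    (hY : ∀ F ∈ Y, ∀ G, G ⊆ F → G ∈ Y) {E : Type*} [NormedAddCommGroup E] [NormedSpace ℝ E]
    {B O : Set E} (hB : Convex ℝ B) (hO : IsOpen O)
    {hf : (Fin n → ℝ) → E} {G : E → (Fin n → ℝ)} (hfc : ContinuousOn hf (geom Y))
    (hfm : ∀ x ∈ geom Y, hf x ∈ B ∩ O) (hGc : ContinuousOn G (B ∩ O))
    (hGm : ∀ p ∈ B ∩ O, G p ∈ geom Y) (hGf : ∀ x ∈ geom Y, G (hf x) = x) {m : ℕ}
    (apex : ∀ S : Finset (List E), (∀ l ∈ S, l.length = m ∧ hull l ⊆ B ∩ O) →
      ∃ q, ∀ l ∈ S, hull (q :: l) ⊆ B ∩ O)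
    {c : LC k (Fin n)} (hc : c ∈ Sup k fun l => l.toFinset ∈ Y ∧ l.length = m)
    (hcyc : bd k c = 0) :
    ∃ b ∈ Sup k (fun l : List (Fin n) => l.toFinset ∈ Y ∧ l.length = m + 1), c = bd k b := by
  classical
  have hninv : (0 : ℝ) < (n : ℝ)⁻¹ := by
    rw [inv_pos]
    exact_mod_cast hn
  have hKc : IsCompact (hf '' geom Y) := (isCompact_geom hY).image_of_continuousOn hfc
  have hKO : hf '' geom Y ⊆ O := by
    rintro _ ⟨x, hx, rfl⟩
    exact (hfm x hx).2
  -- the point of `B ∩ O` near `K` has an image near that of the point of `K`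
  obtain ⟨δ₁, hδ₁, h₁⟩ : ∃ δ₁ > 0, ∀ x ∈ geom Y, ∀ p ∈ B ∩ O, dist p (hf x) < δ₁ →
      dist (G p) x < (n : ℝ)⁻¹ := by
    by_contra! h
    choose x hx p hp hd hge using fun i : ℕ => h (1 / ((i : ℝ) + 1)) (by positivity)
    obtain ⟨a, ha, φ, hφ, hlim⟩ := (isCompact_geom hY).tendsto_subseq hx
    have h1 : Filter.Tendsto (fun i => hf (x (φ i))) Filter.atTop (nhds (hf a)) :=
      (hfc a ha).tendsto.comp (tendsto_nhdsWithin_iff.mpr ⟨hlim, Filter.Eventually.of_forall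
        fun i => hx (φ i)⟩)
    have h2 : Filter.Tendsto (fun i => p (φ i)) Filter.atTop (nhds (hf a)) := by
      rw [tendsto_iff_dist_tendsto_zero] at h1 ⊢
      have h3 : Filter.Tendsto (fun i => 1 / ((φ i : ℝ) + 1)) Filter.atTop (nhds 0) :=
        tendsto_one_div_add_atTop_nhds_zero_nat.comp hφ.tendsto_atTop
      have h4 := h3.add h1
      rw [add_zero] at h4
      refine squeeze_zero (fun _ => dist_nonneg) (fun i => ?_) h4
      exact (dist_triangle _ _ _).trans (add_le_add (hd (φ i)).le le_rfl)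
    have h5 : Filter.Tendsto (fun i => G (p (φ i))) Filter.atTop (nhds a) := by
      have h6 := (hGc (hf a) (hfm a ha)).tendsto.comp (tendsto_nhdsWithin_iff.mpr
        ⟨h2, Filter.Eventually.of_forall fun i => hp (φ i)⟩)
      rw [hGf a ha] at h6
      exact h6
    have h7 := h5.dist hlim
    rw [dist_self] at h7
    have h8 : (n : ℝ)⁻¹ ≤ 0 :=
      ge_of_tendsto h7 (Filter.Eventually.of_forall fun i => hge (φ i))
    exact absurd h8 (not_le.mpr hninv)
  obtain ⟨δ₂, hδ₂, h₂⟩ : ∃ δ₂ > 0, Metric.thickening δ₂ (hf '' geom Y) ⊆ O :=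
    hKc.exists_thickening_subset_open hO hKO
  obtain ⟨δ₃, hδ₃, h₃⟩ : ∃ δ₃ > 0, ∀ x ∈ geom Y, ∀ y ∈ geom Y, dist x y < δ₃ →
      dist (hf x) (hf y) < min δ₁ δ₂ := by
    have h := (isCompact_geom hY).uniformContinuousOn_of_continuous hfc
    rw [Metric.uniformContinuousOn_iff] at h
    exact h _ (lt_min hδ₁ hδ₂)
  set δ : ℝ := min δ₃ (n : ℝ)⁻¹ with hδ
  have hδ0 : 0 < δ := lt_min hδ₃ hninv
  -- the first subdivision
  have hιc : lmap k vx c ∈ Sup k fun l : List (Fin n → ℝ) => l.length = m :=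
    lmap_mem (fun l h => (List.length_map _).trans h.2) hc
  obtain ⟨N, hN⟩ := exists_SdN hιc hδ0
  set c₁ : LC k (Fin n → ℝ) := (Sd k ^ N) (lmap k vx c) with hc₁
  have hc₁c : bd k c₁ = 0 := by
    rw [hc₁, bd_SdN, ← lmap_bd, hcyc, map_zero, map_zero]
  have hc₁F : c₁ ∈ Sup k fun l => Fine Y δ l ∧ l.length = m := by
    have h0 : lmap k vx c ∈ Sup k fun l => ∃ l₀ : List (Fin n), l₀.toFinset ∈ Y ∧
        l₀.length = m ∧ l = l₀.map vx := lmap_mem (fun l h => ⟨l, h.1, h.2, rfl⟩) hc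
    refine map_mem_of fun l hl => ?_
    obtain ⟨l₀, h1, h2, rfl⟩ := mem_Sup.mp h0 l hl
    refine Sup_mono (fun l' h' => ⟨⟨⟨l₀.toFinset, h1, fun x hx => ?_⟩, h'.2.2⟩, ?_⟩) (hN _ hl)
    · refine hull_subset_cface (fun y hy => ?_) (h'.1 x hx)
      obtain ⟨j, hj, rfl⟩ := List.mem_map.mp hy
      exact vx_mem_cface (List.mem_toFinset.mpr hj)
    · rw [h'.2.1, List.length_map, h2]
  -- facts about fine lists
  have hYg : ∀ l, Fine Y δ l → ∀ x ∈ l, x ∈ geom Y := by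
    rintro l ⟨⟨F, hF, h1⟩, _⟩ x hx
    exact mem_geom_of_cface hY hF (h1 x hx)
  have hfine' : ∀ l, Fine Y δ l → ∀ p ∈ hull (l.map hf), ∀ x ∈ l,
      dist p (hf x) < min δ₁ δ₂ := by
    intro l hl p hp x hx
    obtain ⟨y', hy', h1⟩ := convexHull_exists_dist_ge hp (hf x)
    obtain ⟨y, hy, rfl⟩ := List.mem_map.mp hy'
    refine h1.trans_lt (h₃ y (hYg l hl y hy) x (hYg l hl x hx) ?_)
    exact (hl.2 y hy x hx).trans_le (min_le_left _ _)
  have hfine : ∀ l, Fine Y δ l → ∀ p ∈ hull (l.map hf), p ∈ B ∩ O ∧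
      ∀ x ∈ l, dist (G p) x < (n : ℝ)⁻¹ := by
    intro l hl p hp
    have hne : l ≠ [] := by
      rintro rfl
      have h1 : p ∈ convexHull ℝ {x : E | x ∈ ([] : List E)} := hp
      simp at h1
    have hpB : p ∈ B := by
      refine convexHull_min (fun y' hy' => ?_) hB hp
      obtain ⟨y, hy, rfl⟩ := List.mem_map.mp hy'
      exact (hfm y (hYg l hl y hy)).1
    obtain ⟨x₀, hx₀⟩ := List.exists_mem_of_ne_nil l hne
    have hpO : p ∈ O := by
      refine h₂ (Metric.mem_thickening_iff.mpr ⟨hf x₀, ⟨x₀, hYg l hl x₀ hx₀, rfl⟩, ?_⟩)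
      exact (hfine' l hl p hp x₀ hx₀).trans_le (min_le_right _ _)
    exact ⟨⟨hpB, hpO⟩, fun x hx => h₁ x (hYg l hl x hx) p ⟨hpB, hpO⟩
      ((hfine' l hl p hp x hx).trans_le (min_le_left _ _))⟩
  -- the chain in the ball
  set c' : LC k E := lmap k hf c₁ with hc'
  have hc'c : bd k c' = 0 := by rw [hc', ← lmap_bd, hc₁c, map_zero]
  have hc'F : c' ∈ Sup k fun l => l.length = m ∧ hull l ⊆ B ∩ O :=
    lmap_mem (fun l h => ⟨(List.length_map _).trans h.2, fun p hp => (hfine l h.1 p hp).1⟩) hc₁F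
  obtain ⟨q, hq⟩ := apex c'.support fun l hl => mem_Sup.mp hc'F l (Finsupp.mem_support_iff.mp hl)
  have hcone : cone k q c' ∈ Sup k fun l => l.length = m + 1 ∧ ∃ l₀ ∈ c'.support, l = q :: l₀ :=
    map_mem_of fun l hl => by
      rw [cone_single]
      exact single_mem_Sup ⟨by rw [List.length_cons, (mem_Sup.mp hc'F l hl).1],
        l, Finsupp.mem_support_iff.mpr hl, rfl⟩ 1
  -- `G` is uniformly continuous on the cones
  obtain ⟨δ₄, hδ₄, h₄⟩ : ∃ δ₄ > 0, ∀ l₀ ∈ c'.support, ∀ p ∈ hull (q :: l₀),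
      ∀ p' ∈ hull (q :: l₀), dist p p' < δ₄ → dist (G p) (G p') < (n : ℝ)⁻¹ := by
    have hK2 : IsCompact (⋃ l₀ ∈ c'.support, hull (q :: l₀)) :=
      c'.support.isCompact_biUnion fun l₀ _ =>
        (List.finite_toSet (q :: l₀)).isCompact_convexHull (𝕜 := ℝ)
    have hK2O : (⋃ l₀ ∈ c'.support, hull (q :: l₀)) ⊆ B ∩ O :=
      Set.iUnion₂_subset fun l₀ hl₀ => hq l₀ hl₀
    have h := hK2.uniformContinuousOn_of_continuous (hGc.mono hK2O)
    rw [Metric.uniformContinuousOn_iff] at h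
    obtain ⟨δ₄, hδ₄, h4⟩ := h _ hninv
    refine ⟨δ₄, hδ₄, fun l₀ hl₀ p hp p' hp' => h4 p ?_ p' ?_⟩
    · exact Set.mem_biUnion hl₀ hp
    · exact Set.mem_biUnion hl₀ hp'
  obtain ⟨M, hM⟩ := exists_SdN (Sup_mono (fun l h => h.1) hcone) hδ₄
  -- the second homotopy
  obtain ⟨b₁, hb₁, e₁⟩ : ∃ b ∈ Sup k (fun l : List (Fin n) => l.toFinset ∈ Y ∧ l.length = m + 1),
      lmap k (fun p => nu hn (G p)) ((Sd k ^ M) (lmap k hf c₁)) - lmap k (nu hn) c₁ =
        bd k b := by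
    have h := carrier (k := k) (P := Fin n → ℝ) (V := Fin n) (A := Fine Y δ)
      (fun l l' h1 h2 => by
        obtain ⟨⟨F, hF, h3⟩, h4⟩ := h1
        exact ⟨⟨F, hF, fun x hx => h3 x (h2.subset hx)⟩,
          fun x hx y hy => h4 x (h2.subset hx) y (h2.subset hy)⟩)
      (φ := (lmap k fun p => nu hn (G p)).comp ((Sd k ^ M).comp (lmap k hf)))
      (ψ := lmap k (nu hn)) (τ := fun l v => ∃ x ∈ l, v ∈ spt x)
      (fun l l' _ h2 v hv => by
        obtain ⟨x, hx, hv⟩ := hv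
        exact ⟨x, h2.subset hx, hv⟩) ?_ ?_ ?_ ?_ ?_ ?_ (m := m)
      (B := fun l => l.toFinset ∈ Y ∧ l.length = m + 1) ?_ hc₁F hc₁c
    · exact h
    · intro l hl
      rw [LinearMap.comp_apply, LinearMap.comp_apply, lmap_single]
      have hD : ∀ x ∈ l.map hf, ∀ y ∈ l.map hf, dist x y ≤ min δ₁ δ₂ := by
        intro x hx y hy
        obtain ⟨y₀, hy₀, rfl⟩ := List.mem_map.mp hy
        exact (hfine' l hl x (mem_hull hx) y₀ hy₀).le
      refine lmap_mem (fun l' h' => ⟨fun v hv => ?_, ?_⟩) (SdN_mem (k := k) M hD)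
      · obtain ⟨p, hp, rfl⟩ := List.mem_map.mp hv
        have h1 := hfine l hl p (h'.1 p hp)
        have hne : l ≠ [] := by
          rintro rfl
          have h2 : p ∈ convexHull ℝ {x : E | x ∈ ([] : List E)} := h'.1 p hp
          simp at h2
        obtain ⟨x₀, hx₀⟩ := List.exists_mem_of_ne_nil l hne
        exact ⟨x₀, hx₀, nu_mem_spt hn (hGm p h1.1).2.1 (h1.2 x₀ hx₀)⟩
      · rw [List.length_map, h'.2.1, List.length_map]
    · intro l hl
      rw [lmap_single]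
      refine single_mem_Sup ⟨fun v hv => ?_, List.length_map _⟩ 1
      obtain ⟨x, hx, rfl⟩ := List.mem_map.mp hv
      exact ⟨x, hx, nu_mem_self hn (hYg l hl x hx).2.1⟩
    · intro l _
      rw [LinearMap.comp_apply, LinearMap.comp_apply, ← lmap_bd, bd_SdN, ← lmap_bd,
        bd_single_one]
      rfl
    · intro l _
      rw [← lmap_bd, bd_single_one]
    · rw [LinearMap.comp_apply, LinearMap.comp_apply, lmap_single, List.map_nil, SdN_nil,
        lmap_single, List.map_nil, lmap_single, List.map_nil]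
    · intro l hl hne
      obtain ⟨x, hx⟩ := List.exists_mem_of_ne_nil l hne
      exact ⟨_, x, hx, nu_mem_self hn (hYg l hl x hx).2.1⟩
    · rintro l ⟨⟨F, hF, h1⟩, _⟩ _ l' h2 h3
      refine ⟨hY F hF _ fun v hv => ?_, h3⟩
      obtain ⟨x, hx, hv⟩ := h2 v (List.mem_toFinset.mp hv)
      exact spt_subset_of_mem (h1 x hx) hv
  obtain ⟨b₂, hb₂, e₂⟩ := nu_SdN hn hY N hc hcyc
  -- the cone
  set b₃ : LC k (Fin n) := lmap k (fun p => nu hn (G p)) ((Sd k ^ M) (cone k q c')) with hb₃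
  have hb₃Y : b₃ ∈ Sup k fun l : List (Fin n) => l.toFinset ∈ Y ∧ l.length = m + 1 := by
    have h1 : (Sd k ^ M) (cone k q c') ∈ Sup k fun l' => l'.length = m + 1 ∧
        (∀ p ∈ l', p ∈ B ∩ O) ∧ ∀ p ∈ l', ∀ p' ∈ l', dist (G p) (G p') < (n : ℝ)⁻¹ := by
      refine map_mem_of fun l hl => ?_
      obtain ⟨h2, l₀, hl₀, rfl⟩ := mem_Sup.mp hcone l hl
      refine Sup_mono (fun l' h' => ⟨h'.2.1.trans h2, fun p hp => hq l₀ hl₀ (h'.1 p hp),
        fun p hp p' hp' => h₄ l₀ hl₀ p (h'.1 p hp) p' (h'.1 p' hp') (h'.2.2 p hp p' hp')⟩)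
        (hM _ hl)
    refine lmap_mem (fun l' h' => ⟨?_, (List.length_map _).trans h'.1⟩) h1
    have hne : l' ≠ [] := by
      rintro rfl
      have := h'.1
      simp at this
    obtain ⟨p₀, hp₀⟩ := List.exists_mem_of_ne_nil l' hne
    refine hY _ (hGm p₀ (h'.2.1 p₀ hp₀)).2.2 _ fun v hv => ?_
    obtain ⟨p, hp, rfl⟩ := List.mem_map.mp (List.mem_toFinset.mp hv)
    exact nu_mem_spt hn (hGm p (h'.2.1 p hp)).2.1 (h'.2.2 p hp p₀ hp₀)
  have e₃ : bd k b₃ = lmap k (fun p => nu hn (G p)) ((Sd k ^ M) (lmap k hf c₁)) := by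
    rw [hb₃, ← lmap_bd, bd_SdN, bd_cone, hc'c, map_zero, sub_zero]
  refine ⟨b₃ - b₁ - b₂, Submodule.sub_mem _ (Submodule.sub_mem _ hb₃Y hb₁) hb₂, ?_⟩
  rw [map_sub, map_sub, ← e₁, ← e₂, e₃]
  abel

end Pool.Agent.Lib.MP_fd6ff4_co.R43.Top
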