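import Mathlib
import Pool.Agent.Lib.MP_fd6ff4_co.R43.Top.Vanish
import Pool.Agent.Lib.MP_fd6ff4_co.R43.Top.Apex

/-!
# The homology of a complex homeomorphic to a ball, and of the faces not containing a given face
-/

set_option autoImplicit false

open Finset

namespace Pool.Agent.Lib.MP_fd6ff4_co.R43.Top

variable {k : Type*} [CommRing k] {n m : ℕ}

/-- the homeomorphism as a map of the ambient spaces -/
noncomputable def fwd {X : Finset (Finset (Fin n))}
    (h : geom X ≃ₜ Metric.closedBall (0 : EuclideanSpace ℝ (Fin m)) 1) (x : Fin n → ℝ) :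
    EuclideanSpace ℝ (Fin m) := by
  classical
  exact if hx : x ∈ geom X then (h ⟨x, hx⟩ : EuclideanSpace ℝ (Fin m)) else 0

/-- the inverse homeomorphism as a map of the ambient spaces -/
noncomputable def bwd {X : Finset (Finset (Fin n))}
    (h : geom X ≃ₜ Metric.closedBall (0 : EuclideanSpace ℝ (Fin m)) 1)
    (p : EuclideanSpace ℝ (Fin m)) : Fin n → ℝ := by
  classical
  exact if hp : p ∈ Metric.closedBall (0 : EuclideanSpace ℝ (Fin m)) 1 then
    (h.symm ⟨p, hp⟩ : Fin n → ℝ) else 0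

variable {X : Finset (Finset (Fin n))}
  (h : geom X ≃ₜ Metric.closedBall (0 : EuclideanSpace ℝ (Fin m)) 1)

theorem fwd_of_mem {x : Fin n → ℝ} (hx : x ∈ geom X) : fwd h x = h ⟨x, hx⟩ := by
  rw [fwd, dif_pos hx]

theorem bwd_of_mem {p : EuclideanSpace ℝ (Fin m)}
    (hp : p ∈ Metric.closedBall (0 : EuclideanSpace ℝ (Fin m)) 1) :
    bwd h p = h.symm ⟨p, hp⟩ := by
  rw [bwd, dif_pos hp]

theorem fwd_mem {x : Fin n → ℝ} (hx : x ∈ geom X) :
    fwd h x ∈ Metric.closedBall (0 : EuclideanSpace ℝ (Fin m)) 1 := by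
  rw [fwd_of_mem h hx]
  exact (h ⟨x, hx⟩).2

theorem bwd_mem {p : EuclideanSpace ℝ (Fin m)}
    (hp : p ∈ Metric.closedBall (0 : EuclideanSpace ℝ (Fin m)) 1) : bwd h p ∈ geom X := by
  rw [bwd_of_mem h hp]
  exact (h.symm ⟨p, hp⟩).2

theorem bwd_fwd {x : Fin n → ℝ} (hx : x ∈ geom X) : bwd h (fwd h x) = x := by
  rw [bwd_of_mem h (fwd_mem h hx)]
  have h1 : (⟨fwd h x, fwd_mem h hx⟩ : Metric.closedBall (0 : EuclideanSpace ℝ (Fin m)) 1) =
      h ⟨x, hx⟩ := Subtype.ext (fwd_of_mem h hx)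
  rw [h1, h.symm_apply_apply]

theorem fwd_bwd {p : EuclideanSpace ℝ (Fin m)}
    (hp : p ∈ Metric.closedBall (0 : EuclideanSpace ℝ (Fin m)) 1) : fwd h (bwd h p) = p := by
  rw [fwd_of_mem h (bwd_mem h hp)]
  have h1 : (⟨bwd h p, bwd_mem h hp⟩ : geom X) = h.symm ⟨p, hp⟩ := Subtype.ext (bwd_of_mem h hp)
  rw [h1, h.apply_symm_apply]

theorem continuousOn_fwd : ContinuousOn (fwd h) (geom X) := by
  rw [continuousOn_iff_continuous_domRestrict]
  have h1 : (geom X).domRestrict (fwd h) = fun x => (h x : EuclideanSpace ℝ (Fin m)) := by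
    funext x
    rw [Set.domRestrict_apply, fwd_of_mem h x.2]
  rw [h1]
  exact continuous_subtype_val.comp h.continuous

theorem continuousOn_bwd :
    ContinuousOn (bwd h) (Metric.closedBall (0 : EuclideanSpace ℝ (Fin m)) 1) := by
  rw [continuousOn_iff_continuous_domRestrict]
  have h1 : (Metric.closedBall (0 : EuclideanSpace ℝ (Fin m)) 1).domRestrict (bwd h) =
      fun x => (h.symm x : Fin n → ℝ) := by
    funext x
    rw [Set.domRestrict_apply, bwd_of_mem h x.2]
  rw [h1]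
  exact continuous_subtype_val.comp h.symm.continuous

include h in
theorem pos_of_ball : 0 < n := by
  have h1 := (bwd_mem h (Metric.mem_closedBall_self zero_le_one)).2.1
  rcases Nat.eq_zero_or_pos n with h2 | h2
  · subst h2
    simp at h1
  · exact h2

include h in
/-- A complex homeomorphic to a ball has no reduced homology. -/
theorem vanish_ball (hX : ∀ F ∈ X, ∀ G, G ⊆ F → G ∈ X) {r : ℕ} {c : LC k (Fin n)}
    (hc : c ∈ Sup k fun l => l.toFinset ∈ X ∧ l.length = r) (hcyc : bd k c = 0) :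
    ∃ b ∈ Sup k (fun l : List (Fin n) => l.toFinset ∈ X ∧ l.length = r + 1), c = bd k b := by
  refine main_abs (pos_of_ball h) hX (B := Metric.closedBall 0 1) (O := Set.univ)
    (convex_closedBall 0 1) isOpen_univ (hf := fwd h) (G := bwd h) (continuousOn_fwd h)
    (fun x hx => ⟨fwd_mem h hx, trivial⟩) ((continuousOn_bwd h).mono Set.inter_subset_left)
    (fun p hp => bwd_mem h hp.1) (fun x hx => bwd_fwd h hx) ?_ hc hcyc
  intro S hS
  refine ⟨0, fun l hl => Set.subset_inter (convexHull_min ?_ (convex_closedBall 0 1))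
    (Set.subset_univ _)⟩
  intro x hx
  rcases List.mem_cons.mp hx with rfl | hx
  · exact Metric.mem_closedBall_self zero_le_one
  · exact ((hS l hl).2 (mem_hull hx)).1

include h in
/-- The faces not containing `F` of a complex homeomorphic to the ball of dimension `m` have no
reduced homology in dimensions at most `m - 2`. -/
theorem vanish_cost (hX : ∀ F ∈ X, ∀ G, G ⊆ F → G ∈ X) {F : Finset (Fin n)} (hF : F ∈ X)
    (hF0 : F.Nonempty) {r : ℕ} (hr : r < m) {c : LC k (Fin n)}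
    (hc : c ∈ Sup k fun l => l.toFinset ∈ X.filter (fun G => ¬ F ⊆ G) ∧ l.length = r)
    (hcyc : bd k c = 0) :
    ∃ b ∈ Sup k (fun l : List (Fin n) => l.toFinset ∈ X.filter (fun G => ¬ F ⊆ G) ∧
      l.length = r + 1), c = bd k b := by
  classical
  have hY : ∀ G ∈ X.filter (fun G => ¬ F ⊆ G), ∀ G', G' ⊆ G →
      G' ∈ X.filter (fun G => ¬ F ⊆ G) := by
    intro G hG G' hG'
    rw [mem_filter] at hG ⊢
    exact ⟨hX G hG.1 G' hG', fun h1 => hG.2 (h1.trans hG')⟩
  have hYX : geom (X.filter (fun G => ¬ F ⊆ G)) ⊆ geom X :=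
    fun x hx => ⟨hx.1, hx.2.1, (mem_filter.mp hx.2.2).1⟩
  have hb : bface F ∈ geom X := by
    refine mem_geom_of_cface hX hF ⟨fun j => ?_, ?_, fun j hj => ?_⟩
    · rw [bface]
      split_ifs
      · positivity
      · exact le_refl 0
    · simp only [bface]
      rw [sum_ite_mem, univ_inter, sum_const, nsmul_eq_mul, mul_inv_cancel₀]
      exact_mod_cast (card_pos.mpr hF0).ne'
    · rw [bface, if_neg hj]
  have hbY : bface F ∉ geom (X.filter (fun G => ¬ F ⊆ G)) := by
    intro h1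
    refine (mem_filter.mp h1.2.2).2 fun j hj => mem_spt.mpr ?_
    rw [bface, if_pos hj]
    refine inv_ne_zero ?_
    exact_mod_cast (card_pos.mpr hF0).ne'
  have hne : ∀ p ∈ Metric.closedBall (0 : EuclideanSpace ℝ (Fin m)) 1 ∩ {fwd h (bface F)}ᶜ,
      bwd h p ≠ bface F := by
    rintro p ⟨hp, hp'⟩ h1
    apply hp'
    rw [Set.mem_singleton_iff, ← h1, fwd_bwd h hp]
  refine main_abs (pos_of_ball h) hY (B := Metric.closedBall 0 1) (O := {fwd h (bface F)}ᶜ)
    (convex_closedBall 0 1) isOpen_compl_singleton (hf := fwd h) (G := fun p => retr hF0 (bwd h p))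
    ((continuousOn_fwd h).mono hYX) (fun x hx => ⟨fwd_mem h (hYX hx), fun h1 => hbY ?_⟩) ?_ ?_ ?_
    ?_ hc hcyc
  · rw [Set.mem_singleton_iff] at h1
    have h2 := bwd_fwd h (hYX hx)
    rw [h1, bwd_fwd h hb] at h2
    rwa [h2]
  · refine (continuousOn_retr hF0).comp ((continuousOn_bwd h).mono Set.inter_subset_left)
      fun p hp => ?_
    have h1 := bwd_mem h hp.1
    exact (card_mc hF0 h1.1 h1.2.1 (hne p hp)).ne
  · intro p hp
    have h1 := bwd_mem h hp.1
    have h2 := retr_spec hF0 h1.1 h1.2.1 (hne p hp)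
    exact ⟨h2.1, h2.2.1, mem_filter.mpr ⟨hX _ h1.2.2 _ h2.2.2.1, h2.2.2.2⟩⟩
  · intro x hx
    show retr hF0 (bwd h (fwd h x)) = x
    rw [bwd_fwd h (hYX hx), retr_eq hF0 hx.1 (mem_filter.mp hx.2.2).2]
  · intro S hS
    obtain ⟨q, hq, h1⟩ := exists_apex (S := S) (p := fwd h (bface F))
      (fun l hl => ⟨by rw [(hS l hl).1]; exact hr, fun h2 => ((hS l hl).2 h2).2 rfl⟩) (by omega)
    refine ⟨q, fun l hl => Set.subset_inter (convexHull_min ?_ (convex_closedBall 0 1)) ?_⟩
    · intro x hx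
      rcases List.mem_cons.mp hx with rfl | hx
      · exact hq
      · exact ((hS l hl).2 (mem_hull hx)).1
    · intro x hx h2
      rw [Set.mem_singleton_iff] at h2
      exact h1 l hl (h2 ▸ hx)

end Pool.Agent.Lib.MP_fd6ff4_co.R43.Top
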