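import Mathlib
import Pool.Agent.Lib.MP_fd6ff4_co.R43.Top.ListChain

/-!
# Signed chains: functions on finite sets of vertices

`(fbd c) R = ∑ v ∉ R, sg v R * c (insert v R)` with `sg v R = (-1)^#{w ∈ R : w < v}`. The signed
chains are a retract of the list chains.
-/

set_option autoImplicit false

open Finset

namespace Pool.Agent.Lib.MP_fd6ff4_co.R43.Top

variable (k : Type*) [CommRing k] {n : ℕ}

/-- the sign of the vertex `v` in the face `R ∪ v` -/
def sg (v : Fin n) (R : Finset (Fin n)) : k := (-1) ^ #{w ∈ R | w < v}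

theorem sg_mul_self (v : Fin n) (R : Finset (Fin n)) : sg k v R * sg k v R = 1 := by
  rw [sg, ← pow_add, ← two_mul, pow_mul]
  norm_num

theorem sg_insert_self (v : Fin n) (R : Finset (Fin n)) : sg k v (insert v R) = sg k v R := by
  rw [sg, sg, filter_insert, if_neg (lt_irrefl v)]

theorem sg_erase_self (v : Fin n) (R : Finset (Fin n)) : sg k v (R.erase v) = sg k v R := by
  rw [sg, sg, filter_erase, erase_eq_of_notMem]
  simp

theorem sg_insert_of_lt {u v : Fin n} {R : Finset (Fin n)} (h : u < v) (hu : u ∉ R) :
    sg k v (insert u R) = -sg k v R := by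
  rw [sg, sg, filter_insert, if_pos h, card_insert_of_notMem (by simp [hu]), pow_succ]
  ring

theorem sg_insert_of_gt {u v : Fin n} {R : Finset (Fin n)} (h : v < u) :
    sg k v (insert u R) = sg k v R := by
  rw [sg, sg, filter_insert, if_neg (not_lt.mpr h.le)]

theorem sg_swap {u v : Fin n} {R : Finset (Fin n)} (hu : u ∉ R) (hv : v ∈ R) :
    sg k u R * sg k v (insert u R) = -(sg k v R * sg k u (R.erase v)) := by
  have huv : u ≠ v := fun h => hu (h ▸ hv)
  have h1 : R = insert v (R.erase v) := (insert_erase hv).symm
  rcases lt_or_gt_of_ne huv with h | h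
  · rw [sg_insert_of_lt k h hu]
    have h2 : sg k u R = sg k u (R.erase v) := by
      conv_lhs => rw [h1]
      exact sg_insert_of_gt k h
    rw [h2]
    ring
  · rw [sg_insert_of_gt k h]
    have h2 : sg k u R = -sg k u (R.erase v) := by
      conv_lhs => rw [h1]
      exact sg_insert_of_lt k h (notMem_erase v R)
    rw [h2]
    ring

/-- the boundary of signed chains -/
def fbd : (Finset (Fin n) → k) →ₗ[k] (Finset (Fin n) → k) where
  toFun c R := ∑ v ∈ univ \ R, sg k v R * c (insert v R)
  map_add' c c' := by
    funext R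
    simp only [Pi.add_apply, mul_add, sum_add_distrib]
  map_smul' a c := by
    funext R
    simp only [Pi.smul_apply, smul_eq_mul, RingHom.id_apply, mul_sum]
    refine sum_congr rfl fun v _ => ?_
    ring

theorem fbd_apply (c : Finset (Fin n) → k) (R : Finset (Fin n)) :
    fbd k c R = ∑ v ∈ univ \ R, sg k v R * c (insert v R) := rfl

/-- the product with a vertex -/
def wedge (v : Fin n) : (Finset (Fin n) → k) →ₗ[k] (Finset (Fin n) → k) where
  toFun c G := if v ∈ G then sg k v G * c (G.erase v) else 0
  map_add' c c' := by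
    funext G
    simp only [Pi.add_apply]
    split_ifs
    · ring
    · ring
  map_smul' a c := by
    funext G
    simp only [Pi.smul_apply, smul_eq_mul, RingHom.id_apply]
    split_ifs
    · ring
    · ring

theorem wedge_apply (v : Fin n) (c : Finset (Fin n) → k) (G : Finset (Fin n)) :
    wedge k v c G = if v ∈ G then sg k v G * c (G.erase v) else 0 := rfl

theorem fbd_wedge (v : Fin n) (c : Finset (Fin n) → k) :
    fbd k (wedge k v c) = c - wedge k v (fbd k c) := by
  funext R
  rw [fbd_apply, Pi.sub_apply, wedge_apply]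
  by_cases hv : v ∈ R
  · rw [if_pos hv, fbd_apply]
    have h1 : univ \ R.erase v = insert v (univ \ R) := by
      ext u
      simp only [mem_sdiff, mem_univ, true_and, mem_erase, mem_insert]
      tauto
    rw [h1, sum_insert (by simp [hv]), insert_erase hv, sg_erase_self, mul_add, ← mul_assoc,
      sg_mul_self, one_mul, ← sub_sub, sub_self, zero_sub, mul_sum, ← sum_neg_distrib]
    refine sum_congr rfl fun u hu => ?_
    have hu' : u ∉ R := by simpa using hu
    have huv : u ≠ v := fun h => hu' (h ▸ hv)
    rw [wedge_apply, if_pos (mem_insert_of_mem hv), ← mul_assoc, sg_swap k hu' hv,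
      erase_insert_of_ne huv]
    ring
  · rw [if_neg hv, sub_zero]
    rw [sum_eq_single v]
    · rw [wedge_apply, if_pos (mem_insert_self v R), sg_insert_self, erase_insert hv, ← mul_assoc,
        sg_mul_self, one_mul]
    · intro u _ huv
      rw [wedge_apply, if_neg, mul_zero]
      rw [mem_insert]
      rintro (h | h)
      · exact huv h.symm
      · exact hv h
    · intro h
      simp [hv] at h

/-- the characteristic function of a set -/
def dl (G : Finset (Fin n)) : Finset (Fin n) → k := fun H => if H = G then 1 else 0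

theorem fbd_dl_empty : fbd k (dl k (∅ : Finset (Fin n))) = 0 := by
  funext R
  rw [fbd_apply, Pi.zero_apply]
  refine sum_eq_zero fun v _ => ?_
  rw [dl, if_neg (insert_ne_empty v R), mul_zero]

/-- the signed chain of a list -/
def prl : List (Fin n) → (Finset (Fin n) → k)
  | [] => dl k ∅
  | v :: l => wedge k v (prl l)

/-- the projection of the list chains onto the signed chains -/
noncomputable def proj : LC k (Fin n) →ₗ[k] (Finset (Fin n) → k) :=
  Finsupp.linearCombination k (prl k)

theorem proj_single (l : List (Fin n)) : proj k (Finsupp.single l 1) = prl k l := by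
  rw [proj, Finsupp.linearCombination_single, one_smul]

theorem proj_cone (v : Fin n) (c : LC k (Fin n)) : proj k (cone k v c) = wedge k v (proj k c) := by
  have h : (proj k).comp (cone k v) = (wedge k v).comp (proj k) := by
    refine lc_ext k fun l => ?_
    rw [LinearMap.comp_apply, LinearMap.comp_apply, cone_single, proj_single, proj_single, prl]
  exact LinearMap.congr_fun h c

theorem fbd_prl (l : List (Fin n)) : fbd k (prl k l) = proj k (bdl k l) := by
  induction l with
  | nil => rw [prl, fbd_dl_empty, bdl_nil, map_zero]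
  | cons v l ih => rw [prl, fbd_wedge, ih, bdl_cons, map_sub, proj_single, proj_cone]

theorem fbd_proj (c : LC k (Fin n)) : fbd k (proj k c) = proj k (bd k c) := by
  have h : (fbd k).comp (proj k) = (proj k).comp (bd k (P := Fin n)) := by
    refine lc_ext k fun l => ?_
    rw [LinearMap.comp_apply, LinearMap.comp_apply, proj_single, fbd_prl, bd_single_one]
  exact LinearMap.congr_fun h c

theorem prl_ne (l : List (Fin n)) {G : Finset (Fin n)} (h : prl k l G ≠ 0) :
    G = l.toFinset ∧ #G = l.length := by
  induction l generalizing G with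
  | nil =>
    rw [prl, dl] at h
    have h1 : G = ∅ := by
      by_contra h2
      rw [if_neg h2] at h
      exact h rfl
    rw [h1]
    simp
  | cons v l ih =>
    rw [prl, wedge_apply] at h
    split_ifs at h with h1
    · have h2 := ih (right_ne_zero_of_mul h)
      constructor
      · rw [List.toFinset_cons, ← h2.1, insert_erase h1]
      · rw [List.length_cons, ← h2.2, card_erase_add_one h1]
    · exact absurd rfl h

theorem proj_mem {A : List (Fin n) → Prop} {c : LC k (Fin n)} (hc : c ∈ Sup k A)
    {G : Finset (Fin n)} (h : proj k c G ≠ 0) : ∃ l, A l ∧ G = l.toFinset ∧ #G = l.length := by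
  by_contra h1
  push Not at h1
  apply h
  have h2 := map_Sup (k := k) (A := A) (N := (⊥ : Submodule k k))
    (f := (LinearMap.proj G).comp (proj k)) (fun l hl => by
      rw [Submodule.mem_bot, LinearMap.comp_apply, proj_single, LinearMap.proj_apply]
      by_contra h3
      have h4 := prl_ne k l h3
      exact h1 l hl h4.1 h4.2) hc
  rw [Submodule.mem_bot] at h2
  exact h2

/-! ### The section -/

theorem sort_insert_min {a : Fin n} {s : Finset (Fin n)} (h : ∀ x ∈ s, a < x) :
    (insert a s).sort (· ≤ ·) = a :: s.sort (· ≤ ·) := by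
  have ha : a ∉ s := fun h1 => lt_irrefl a (h a h1)
  exact sort_insert (r := (· ≤ ·)) (fun b hb => (h b hb).le) ha

theorem sg_min {a : Fin n} {s : Finset (Fin n)} (h : ∀ x ∈ s, a < x) :
    sg k a (insert a s) = 1 := by
  rw [sg_insert_self, sg, filter_false_of_mem, card_empty, pow_zero]
  exact fun x hx => not_lt.mpr (h x hx).le

theorem bdl_sort (G : Finset (Fin n)) : bdl k (G.sort (· ≤ ·)) =
    ∑ v ∈ G, sg k v G • Finsupp.single ((G.erase v).sort (· ≤ ·)) 1 := by
  induction G using Finset.induction_on_min with
  | empty => rw [sort_empty, bdl_nil, sum_empty]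
  | insert a s h ih =>
    have ha : a ∉ s := fun h1 => lt_irrefl a (h a h1)
    rw [sort_insert_min h, bdl_cons, ih, sum_insert ha, sg_min k h, one_smul, erase_insert ha,
      map_sum, sub_eq_add_neg, ← sum_neg_distrib]
    congr 1
    refine sum_congr rfl fun v hv => ?_
    have hav : a ≠ v := fun h1 => ha (h1 ▸ hv)
    rw [map_smul, cone_single, sg_insert_of_lt k (h v hv) ha, neg_smul,
      erase_insert_of_ne hav, sort_insert_min]
    exact fun x hx => h x (mem_of_mem_erase hx)

theorem prl_sort (G : Finset (Fin n)) : prl k (G.sort (· ≤ ·)) = dl k G := by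
  induction G using Finset.induction_on_min with
  | empty => rw [sort_empty, prl]
  | insert a s h ih =>
    have ha : a ∉ s := fun h1 => lt_irrefl a (h a h1)
    rw [sort_insert_min h, prl, ih]
    funext H
    rw [wedge_apply, dl, dl]
    by_cases h1 : H = insert a s
    · subst h1
      rw [if_pos (mem_insert_self a s), sg_min k h, erase_insert ha, if_pos rfl, if_pos rfl,
        one_mul]
    · rw [if_neg h1]
      split_ifs with h2 h3
      · exact absurd (by rw [← h3, insert_erase h2]) h1
      · rw [mul_zero]
      · rfl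

/-- the signed chains as list chains -/
noncomputable def sec : (Finset (Fin n) → k) →ₗ[k] LC k (Fin n) where
  toFun c := ∑ G, c G • Finsupp.single (G.sort (· ≤ ·)) 1
  map_add' c c' := by
    simp only [Pi.add_apply, add_smul, sum_add_distrib]
  map_smul' a c := by
    simp only [Pi.smul_apply, smul_eq_mul, RingHom.id_apply, mul_smul, smul_sum]

theorem sec_apply (c : Finset (Fin n) → k) :
    sec k c = ∑ G, c G • Finsupp.single (G.sort (· ≤ ·)) 1 := rfl

theorem proj_sec (c : Finset (Fin n) → k) : proj k (sec k c) = c := by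
  rw [sec_apply, map_sum]
  funext H
  rw [Finset.sum_apply]
  simp only [map_smul, proj_single, prl_sort, Pi.smul_apply, smul_eq_mul, dl, mul_ite, mul_one,
    mul_zero]
  rw [sum_ite_eq, if_pos (mem_univ H)]

theorem bd_sec (c : Finset (Fin n) → k) : bd k (sec k c) = sec k (fbd k c) := by
  rw [sec_apply, sec_apply, map_sum]
  simp only [map_smul, bd_single_one, bdl_sort, fbd_apply, smul_sum, sum_smul, smul_smul]
  rw [sum_sigma', sum_sigma']
  refine sum_bij' (fun x _ => ⟨x.1.erase x.2, x.2⟩) (fun x _ => ⟨insert x.2 x.1, x.2⟩) ?_ ?_ ?_ ?_ ?_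
  · rintro ⟨G, v⟩ h
    simp
  · rintro ⟨G, v⟩ h
    simp
  · rintro ⟨G, v⟩ h
    simp only [mem_sigma, mem_univ, true_and] at h
    simp only [insert_erase h]
  · rintro ⟨G, v⟩ h
    simp only [mem_sigma, mem_univ, true_and, mem_sdiff] at h
    simp only [erase_insert h]
  · rintro ⟨G, v⟩ h
    simp only [mem_sigma, mem_univ, true_and] at h
    simp only [insert_erase h, sg_erase_self]
    rw [mul_comm]

theorem fbd_fbd (c : Finset (Fin n) → k) : fbd k (fbd k c) = 0 := by
  rw [← proj_sec k c, fbd_proj, fbd_proj, bd_bd, map_zero]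

/-- vanishing for the list chains gives vanishing for the signed chains -/
theorem signed_of_list {Y : Finset (Finset (Fin n))} {r : ℕ}
    (H : ∀ c ∈ Sup k (fun l : List (Fin n) => l.toFinset ∈ Y ∧ l.length = r), bd k c = 0 →
      ∃ b ∈ Sup k (fun l : List (Fin n) => l.toFinset ∈ Y ∧ l.length = r + 1), c = bd k b)
    {c : Finset (Fin n) → k} (hc : ∀ G, c G ≠ 0 → G ∈ Y ∧ #G = r) (hcyc : fbd k c = 0) :
    ∃ b : Finset (Fin n) → k, (∀ G, b G ≠ 0 → G ∈ Y ∧ #G = r + 1) ∧ fbd k b = c := by
  obtain ⟨b, hb, h1⟩ := H (sec k c) (by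
    rw [sec_apply]
    refine Submodule.sum_mem _ fun G _ => ?_
    by_cases h0 : c G = 0
    · rw [h0, zero_smul]
      exact Submodule.zero_mem _
    · refine Submodule.smul_mem _ _ (single_mem_Sup ⟨?_, ?_⟩ 1)
      · rw [sort_toFinset]
        exact (hc G h0).1
      · rw [length_sort]
        exact (hc G h0).2) (by rw [bd_sec, hcyc, map_zero])
  refine ⟨proj k b, fun G hG => ?_, ?_⟩
  · obtain ⟨l, hl, h2, h3⟩ := proj_mem k hb hG
    exact ⟨h2 ▸ hl.1, h3.trans hl.2⟩
  · rw [fbd_proj, ← h1, proj_sec]

end Pool.Agent.Lib.MP_fd6ff4_co.R43.Top
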