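import Mathlib
import Pool.Agent.Lib.MP_fd6ff4_co.R43.Top.Ball
import Pool.Agent.Lib.MP_fd6ff4_co.R43.Top.Signed

/-!
# The faces containing a given face of a topological triangulation: exactness below the top

`TopTri.exact`: for every `U`, every face `G₀` with carrier inside `U` and every `j < #U` the complex of
the signed chains of the faces of `Γ_U` which contain `G₀` is exact at the place `j` (the faces with
`j` vertices), with coefficients in any commutative ring.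
-/

set_option autoImplicit false

open Finset

namespace Pool.Agent.Lib.MP_fd6ff4_co.R43

open Pool.Agent.Lib.MP_fd6ff4_co.R43.Top

variable {d n : ℕ}

/-- the faces `G ∈ Γ` with `G₀ ⊆ G`, carrier inside `U` and `j` vertices -/
def RgS (σ : Fin n → Finset (Fin d)) (Γ : Finset (Finset (Fin n))) (G₀ : Finset (Fin n))
    (U : Finset (Fin d)) (j : ℕ) (G : Finset (Fin n)) : Prop :=
  G ∈ Γ ∧ G₀ ⊆ G ∧ car σ G ⊆ U ∧ #G = j

/-- Exactness at the place `j` of the signed chains of the faces `G ∈ Γ` with `G₀ ⊆ G` and carrier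
inside `U`. -/
def ExS (k : Type*) [CommRing k] (σ : Fin n → Finset (Fin d)) (Γ : Finset (Finset (Fin n)))
    (G₀ : Finset (Fin n)) (U : Finset (Fin d)) (j : ℕ) : Prop :=
  ∀ c : Finset (Fin n) → k, (∀ G, c G ≠ 0 → RgS σ Γ G₀ U j G) →
    (∀ R ∈ Γ, G₀ ⊆ R → car σ R ⊆ U → #R + 1 = j →
      ∑ v ∈ univ \ R, sg k v R * c (insert v R) = 0) →
    ∃ b : Finset (Fin n) → k, (∀ G, b G ≠ 0 → RgS σ Γ G₀ U (j + 1) G) ∧
      ∀ G, RgS σ Γ G₀ U j G → ∑ v ∈ univ \ G, sg k v G * b (insert v G) = c G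

theorem mem_sub {σ : Fin n → Finset (Fin d)} {Γ : Finset (Finset (Fin n))} {U : Finset (Fin d)}
    {G : Finset (Fin n)} : G ∈ sub σ Γ U ↔ G ∈ Γ ∧ car σ G ⊆ U := by
  rw [sub, mem_filter]

theorem sub_down {σ : Fin n → Finset (Fin d)} {Γ : Finset (Finset (Fin n))}
    (hΓ : ∀ F ∈ Γ, ∀ G, G ⊆ F → G ∈ Γ) (U : Finset (Fin d)) :
    ∀ F ∈ sub σ Γ U, ∀ G, G ⊆ F → G ∈ sub σ Γ U := by
  intro F hF G hG
  rw [mem_sub] at hF ⊢
  exact ⟨hΓ F hF.1 G hG, (biUnion_subset_biUnion_of_subset_left _ hG).trans hF.2⟩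

theorem TopTri.exact {Γ : Finset (Finset (Fin n))} {σ : Fin n → Finset (Fin d)}
    (h : TopTri Γ σ) (k : Type*) [CommRing k] {U : Finset (Fin d)} (G₀ : Finset (Fin n)) {j : ℕ}
    (hj : j < #U) : ExS k σ Γ G₀ U j := by
  classical
  intro c hc hcyc
  have hU : U.Nonempty := card_pos.mp (by omega)
  obtain ⟨φ, -⟩ := h.ball U hU
  set X : Finset (Finset (Fin n)) := sub σ Γ U with hX
  have hXd : ∀ F ∈ X, ∀ G, G ⊆ F → G ∈ X := sub_down h.down U
  by_cases hG₀ : G₀ ∈ X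
  swap
  · -- there is no such face
    refine ⟨fun _ => 0, fun G hG => absurd rfl hG, fun G hG => absurd ?_ hG₀⟩
    exact hXd G (mem_sub.mpr ⟨hG.1, hG.2.2.1⟩) _ hG.2.1
  have hc' : ∀ G, c G ≠ 0 → G ∈ X ∧ #G = j := fun G hG =>
    ⟨mem_sub.mpr ⟨(hc G hG).1, (hc G hG).2.2.1⟩, (hc G hG).2.2.2⟩
  -- the boundary of `c`
  have he : ∀ R, fbd k c R ≠ 0 → R ∈ X ∧ #R + 1 = j ∧ ¬ G₀ ⊆ R := by
    intro R hR
    rw [fbd_apply] at hR
    obtain ⟨v, hv, h1⟩ := exists_ne_zero_of_sum_ne_zero hR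
    have h2 := hc' _ (right_ne_zero_of_mul h1)
    have hvR : v ∉ R := by simpa using hv
    rw [card_insert_of_notMem hvR] at h2
    have h3 := hXd _ h2.1 R (subset_insert v R)
    refine ⟨h3, h2.2, fun h4 => hR ?_⟩
    exact hcyc R (mem_sub.mp h3).1 h4 (mem_sub.mp h3).2 h2.2
  -- the vanishing results
  have key1 : ∀ (r : ℕ) (c : Finset (Fin n) → k), (∀ G, c G ≠ 0 → G ∈ X ∧ #G = r) →
      fbd k c = 0 → ∃ b : Finset (Fin n) → k, (∀ G, b G ≠ 0 → G ∈ X ∧ #G = r + 1) ∧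
        fbd k b = c := fun r c h1 h2 =>
    signed_of_list k (fun c hc hcyc => vanish_ball φ hXd hc hcyc) h1 h2
  -- a chain `e'` with the same boundary and without the faces containing `G₀`
  obtain ⟨e', he', h1⟩ : ∃ e' : Finset (Fin n) → k, (∀ G, e' G ≠ 0 → (G ∈ X ∧ #G = j) ∧ ¬ G₀ ⊆ G) ∧
      fbd k (c - e') = 0 := by
    rcases Finset.eq_empty_or_nonempty G₀ with h0 | h0
    · refine ⟨0, fun G hG => absurd rfl hG, ?_⟩
      rw [sub_zero]
      funext R
      by_contra h2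
      exact (he R h2).2.2 (h0 ▸ empty_subset R)
    · rcases Nat.eq_zero_or_pos j with hj0 | hj0
      · refine ⟨0, fun G hG => absurd rfl hG, ?_⟩
        rw [sub_zero]
        funext R
        by_contra h2
        have := (he R h2).2.1
        omega
      · obtain ⟨r, rfl⟩ : ∃ r, j = r + 1 := ⟨j - 1, by omega⟩
        obtain ⟨e', he', h1⟩ := signed_of_list k (Y := X.filter (fun G => ¬ G₀ ⊆ G)) (r := r)
          (fun c hc hcyc => vanish_cost φ hXd hG₀ h0 (by omega) hc hcyc) (c := fbd k c)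
          (fun R hR => by
            have h2 := he R hR
            exact ⟨mem_filter.mpr ⟨h2.1, h2.2.2⟩, by omega⟩) (fbd_fbd k c)
        refine ⟨e', fun G hG => ?_, ?_⟩
        · have h2 := he' G hG
          rw [mem_filter] at h2
          exact ⟨⟨h2.1.1, h2.2⟩, h2.1.2⟩
        · rw [map_sub, h1, sub_self]
  obtain ⟨b, hb, h2⟩ := key1 j (c - e') (fun G hG => by
    by_cases h3 : c G = 0
    · refine (he' G fun h4 => hG ?_).1
      rw [Pi.sub_apply, h3, h4, sub_zero]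
    · exact hc' G h3) h1
  refine ⟨fun G => if G₀ ⊆ G then b G else 0, fun G hG => ?_, fun G hG => ?_⟩
  · beta_reduce at hG
    split_ifs at hG with h3
    · have h4 := hb G hG
      exact ⟨(mem_sub.mp h4.1).1, h3, (mem_sub.mp h4.1).2, h4.2⟩
    · exact absurd rfl hG
  · have h3 := congrFun h2 G
    rw [fbd_apply, Pi.sub_apply] at h3
    have h4 : e' G = 0 := by
      by_contra h5
      exact (he' G h5).2 hG.2.1
    rw [h4, sub_zero] at h3
    rw [← h3]
    refine sum_congr rfl fun v _ => ?_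
    beta_reduce
    rw [if_pos (hG.2.1.trans (subset_insert v G))]

end Pool.Agent.Lib.MP_fd6ff4_co.R43
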