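import Mathlib
import Pool.Agent.Lib.MP_fd6ff4_co.R43.Top.Exact

/-!
# `TopTri.exact` in terms of the subcomplex `sub σ Γ U`, scalar and vector valued
-/

set_option autoImplicit false

open Finset

namespace Pool.Agent.Lib.MP_fd6ff4_co.R43

open Pool.Agent.Lib.MP_fd6ff4_co.R43.Top

variable {d n : ℕ}

/-- the boundary at `H` inside the complex `X` -/
theorem sum_filter_sub {k : Type*} [CommRing k] {X : Finset (Finset (Fin n))}
    {F H : Finset (Fin n)} (z : Finset (Fin n) → k) (hFH : F ⊆ H) {r : ℕ} (hH : #H + 1 = r) :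
    ∑ v ∈ univ \ H, sg k v H *
      (fun G => if G ∈ X ∧ F ⊆ G ∧ #G = r then z G else 0) (insert v H) =
    ∑ v ∈ univ.filter (fun v => v ∉ H ∧ insert v H ∈ X), sg k v H * z (insert v H) := by
  have h1 : univ.filter (fun v => v ∉ H ∧ insert v H ∈ X) =
      (univ \ H).filter fun v => insert v H ∈ X := by
    ext v
    simp
  rw [h1, sum_filter]
  refine sum_congr rfl fun v hv => ?_
  have hv' : v ∉ H := by simpa using hv
  beta_reduce
  by_cases h2 : insert v H ∈ X
  · rw [if_pos h2, if_pos]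
    exact ⟨h2, hFH.trans (subset_insert v H), by rw [card_insert_of_notMem hv', hH]⟩
  · rw [if_neg h2, if_neg (fun h => h2 h.1), mul_zero]

theorem TopTri.exact_sub {Γ : Finset (Finset (Fin n))} {σ : Fin n → Finset (Fin d)}
    (h : TopTri Γ σ) {k : Type*} [CommRing k] {U : Finset (Fin d)} (F : Finset (Fin n)) {r : ℕ}
    (hr : r < #U) (z : Finset (Fin n) → k)
    (hz : ∀ H ∈ sub σ Γ U, F ⊆ H → #H + 1 = r →
      ∑ v ∈ univ.filter (fun v => v ∉ H ∧ insert v H ∈ sub σ Γ U),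
        sg k v H * z (insert v H) = 0) :
    ∃ y : Finset (Fin n) → k, ∀ G ∈ sub σ Γ U, F ⊆ G → #G = r →
      z G = ∑ v ∈ univ.filter (fun v => v ∉ G ∧ insert v G ∈ sub σ Γ U),
        sg k v G * y (insert v G) := by
  classical
  obtain ⟨b, hb, h1⟩ := h.exact k F hr
    (fun G => if G ∈ sub σ Γ U ∧ F ⊆ G ∧ #G = r then z G else 0) (fun G hG => by
      split_ifs at hG with h2
      · exact ⟨(mem_sub.mp h2.1).1, h2.2.1, (mem_sub.mp h2.1).2, h2.2.2⟩
      · exact absurd rfl hG) (fun R hR hFR hU hcard => by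
      rw [sum_filter_sub z hFR hcard]
      exact hz R (mem_sub.mpr ⟨hR, hU⟩) hFR hcard)
  refine ⟨b, fun G hG hFG hcard => ?_⟩
  have h2 := h1 G ⟨(mem_sub.mp hG).1, hFG, (mem_sub.mp hG).2, hcard⟩
  rw [if_pos ⟨hG, hFG, hcard⟩] at h2
  rw [← h2, ← sum_filter_sub b hFG (by rw [hcard])]
  refine sum_congr rfl fun v hv => ?_
  beta_reduce
  split_ifs with h3
  · rfl
  · by_contra h4
    have h5 := hb (insert v G) fun h6 => h4 (by rw [h6])
    exact h3 ⟨mem_sub.mpr ⟨h5.1, h5.2.2.1⟩, h5.2.1, h5.2.2.2⟩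

/-- the vector valued form -/
theorem TopTri.exact_sub_pi {Γ : Finset (Finset (Fin n))} {σ : Fin n → Finset (Fin d)}
    (h : TopTri Γ σ) {k : Type*} [CommRing k] {ι : Type*} {U : Finset (Fin d)}
    (F : Finset (Fin n)) {r : ℕ} (hr : r < #U) (z : Finset (Fin n) → ι → k)
    (hz : ∀ H ∈ sub σ Γ U, F ⊆ H → #H + 1 = r →
      ∑ v ∈ univ.filter (fun v => v ∉ H ∧ insert v H ∈ sub σ Γ U),
        sg k v H • z (insert v H) = 0) :
    ∃ y : Finset (Fin n) → ι → k, ∀ G ∈ sub σ Γ U, F ⊆ G → #G = r →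
      z G = ∑ v ∈ univ.filter (fun v => v ∉ G ∧ insert v G ∈ sub σ Γ U),
        sg k v G • y (insert v G) := by
  classical
  choose y hy using fun i : ι => h.exact_sub (k := k) F hr (fun G => z G i)
    (fun H hH hFH hcard => by
      have h1 := congrFun (hz H hH hFH hcard) i
      rw [Finset.sum_apply, Pi.zero_apply] at h1
      exact h1)
  refine ⟨fun G i => y i G, fun G hG hFG hcard => ?_⟩
  funext i
  rw [Finset.sum_apply, hy i G hG hFG hcard]
  rfl

end Pool.Agent.Lib.MP_fd6ff4_co.R43
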